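import Pool.Agent.Q235.HE.Roots

set_option autoImplicit false

/-!
# Non-zero edge energies stay away from zero
-/

namespace Pool.Agent.Q235.HE

open scoped ENNReal InnerProductSpace Topology
open Filter

/-- `p(z) = z⁴ + z³ + λ`. -/
def pp (lam z : ℂ) : ℂ := z ^ 4 + z ^ 3 + lam

/-- `q(z) = z⁴ + λ z + λ`. -/
def qq (lam z : ℂ) : ℂ := z ^ 4 + lam * z + lam

/-- `U(z) = u₀ + u₁ z`. -/
def UU (u0 u1 z : ℂ) : ℂ := u0 + u1 * z

theorem tendsto_coord (x : H) : Tendsto (fun n => x n) atTop (𝓝 0) := by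
  have h := (summable_sq x).tendsto_atTop_zero
  rw [tendsto_zero_iff_norm_tendsto_zero]
  have h2 : Tendsto (fun n => Real.sqrt (‖x n‖ ^ 2)) atTop (𝓝 (Real.sqrt 0)) :=
    (Real.continuous_sqrt.tendsto 0).comp h
  rw [Real.sqrt_zero] at h2
  refine h2.congr fun n => ?_
  exact Real.sqrt_sq (norm_nonneg _)

theorem tendsto_coord_mul (x : H) (ρ : ℂ) (hρ : ‖ρ‖ ≤ 1) :
    Tendsto (fun n => x n * ρ ^ n) atTop (𝓝 0) := by
  have h := tendsto_coord x
  rw [tendsto_zero_iff_norm_tendsto_zero] at h ⊢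
  refine squeeze_zero (fun n => norm_nonneg _) (fun n => ?_) h
  rw [norm_mul, norm_pow]
  have h1 : ‖ρ‖ ^ n ≤ 1 := pow_le_one₀ (norm_nonneg _) hρ
  have h2 := norm_nonneg (x n)
  nlinarith

/-- Boundary conditions at the roots. -/
theorem bc (lam E : ℂ) (a b : H) (h1 : T lam a = E • b) (h2 : T' lam b = E • a)
    (hl : lam * (starRingEnd ℂ) lam = 1) (ρ : ℂ) (hρ : ‖ρ‖ ≤ 1)
    (hr : pp lam ρ * qq lam ρ = lam * E ^ 2 * ρ ^ 4) :
    qq lam ρ * UU (a 0) (a 1) ρ + E * ρ ^ 2 * UU (b 0) (b 0 + b 1) ρ = 0 ∧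
    pp lam ρ * UU (b 0) (b 0 + b 1) ρ + E * ρ ^ 2 * lam * UU (a 0) (a 1) ρ = 0 := by
  have ea : ∀ n, E * b n = T lam a n := fun n => by rw [h1, coe_smul]
  have eb : ∀ n, E * a n = T' lam b n := fun n => by rw [h2, coe_smul]
  have a0 : E * b 0 = lam * a 2 := by rw [ea, T_coe_zero]
  have a1 : E * b 1 = a 0 + lam * a 3 := by rw [ea, T_coe_one]
  have an : ∀ n, E * b (n + 2) = a (n + 1) + a n + lam * a (n + 4) := fun n => by rw [ea, T_coe]
  have b0 : E * a 0 = b 1 + b 2 := by rw [eb, T'_coe_zero]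
  have b1 : E * a 1 = b 2 + b 3 := by rw [eb, T'_coe_one]
  have bn : ∀ n, E * a (n + 2) = b (n + 3) + b (n + 4) + (starRingEnd ℂ) lam * b n := fun n => by
    rw [eb, T'_coe]
  set A : ℕ → ℂ := fun N => ∑ l ∈ Finset.range N, a l * ρ ^ l with hA
  set B : ℕ → ℂ := fun N => ∑ l ∈ Finset.range N, b l * ρ ^ l with hB
  have As : ∀ N, A (N + 1) = A N + a N * ρ ^ N := fun N => Finset.sum_range_succ _ _
  have Bs : ∀ N, B (N + 1) = B N + b N * ρ ^ N := fun N => Finset.sum_range_succ _ _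
  have A0 : A 0 = 0 := Finset.sum_range_zero _
  have B0 : B 0 = 0 := Finset.sum_range_zero _
  have c1 : ∀ N, E * ρ ^ 2 * B (N + 2) = ρ ^ 3 * A (N + 1) + ρ ^ 4 * A N
      + lam * (A (N + 4) - UU (a 0) (a 1) ρ) := by
    intro N
    induction N with
    | zero =>
      simp only [As, Bs, A0, B0, UU]
      linear_combination ρ ^ 2 * a0 + ρ ^ 3 * a1
    | succ N ih =>
      have e1 := Bs (N + 2)
      have e2 := As (N + 1)
      have e3 := As N
      have e4 := As (N + 4)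
      rw [show N + 1 + 2 = N + 2 + 1 by ring, show N + 1 + 4 = N + 4 + 1 by ring, e1, e2, e4]
      linear_combination ih + ρ ^ (N + 4) * an N - ρ ^ 4 * e3
  have c2 : ∀ N, E * ρ ^ 2 * A (N + 2) = ρ * B (N + 3) + B (N + 4)
      - UU (b 0) (b 0 + b 1) ρ + (starRingEnd ℂ) lam * ρ ^ 4 * B N := by
    intro N
    induction N with
    | zero =>
      simp only [As, Bs, A0, B0, UU]
      linear_combination ρ ^ 2 * b0 + ρ ^ 3 * b1
    | succ N ih =>
      have e1 := As (N + 2)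
      have e2 := Bs (N + 3)
      have e3 := Bs N
      have e4 := Bs (N + 4)
      rw [show N + 1 + 2 = N + 2 + 1 by ring, show N + 1 + 3 = N + 3 + 1 by ring,
        show N + 1 + 4 = N + 4 + 1 by ring, e1, e2, e4, e3]
      linear_combination ih + ρ ^ (N + 4) * bn N
  have ta := tendsto_coord_mul a ρ hρ
  have tb := tendsto_coord_mul b ρ hρ
  have sh : ∀ (f : ℕ → ℂ) (k : ℕ), Tendsto f atTop (𝓝 0) →
      Tendsto (fun n => f (n + k)) atTop (𝓝 0) := fun f k hf => (tendsto_add_atTop_iff_nat k).2 hf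
  set α : ℕ → ℂ := fun n => a n * ρ ^ n with hα
  set β : ℕ → ℂ := fun n => b n * ρ ^ n with hβ
  have As2 : ∀ N, A (N + 2) = A N + α N + α (N + 1) := fun N => by rw [As, As]
  have As4 : ∀ N, A (N + 4) = A N + α N + α (N + 1) + α (N + 2) + α (N + 3) := fun N => by
    rw [As, As, As2]
  have Bs2 : ∀ N, B (N + 2) = B N + β N + β (N + 1) := fun N => by rw [Bs, Bs]
  have Bs3 : ∀ N, B (N + 3) = B N + β N + β (N + 1) + β (N + 2) := fun N => by rw [Bs, Bs2]
  have Bs4 : ∀ N, B (N + 4) = B N + β N + β (N + 1) + β (N + 2) + β (N + 3) := fun N => by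
    rw [Bs, Bs3]
  -- the two defects
  have d1 : ∀ N, pp lam ρ * A N - E * ρ ^ 2 * B N - lam * UU (a 0) (a 1) ρ =
      E * ρ ^ 2 * (β N + β (N + 1)) - ρ ^ 3 * α N
        - lam * (α N + α (N + 1) + α (N + 2) + α (N + 3)) := by
    intro N
    have h := c1 N
    rw [Bs2, As4, show A (N + 1) = A N + α N from As N] at h
    simp only [pp]
    linear_combination -h
  have d2 : ∀ N, qq lam ρ * B N - lam * E * ρ ^ 2 * A N - lam * UU (b 0) (b 0 + b 1) ρ =
      lam * (E * ρ ^ 2 * (α N + α (N + 1)) - ρ * (β N + β (N + 1) + β (N + 2))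
        - (β N + β (N + 1) + β (N + 2) + β (N + 3))) := by
    intro N
    have h := c2 N
    rw [As2, Bs3, Bs4] at h
    simp only [qq]
    linear_combination (-lam) * h - ρ ^ 4 * B N * hl
  have t1 : Tendsto (fun N => pp lam ρ * A N - E * ρ ^ 2 * B N - lam * UU (a 0) (a 1) ρ) atTop
      (𝓝 0) := by
    have h := ((((tb.add (sh β 1 tb)).const_mul (E * ρ ^ 2)).sub (ta.const_mul (ρ ^ 3))).sub
      ((((ta.add (sh α 1 ta)).add (sh α 2 ta)).add (sh α 3 ta)).const_mul lam))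
    simp only [add_zero, mul_zero, sub_zero] at h
    exact h.congr fun N => (d1 N).symm
  have t2 : Tendsto (fun N => qq lam ρ * B N - lam * E * ρ ^ 2 * A N
      - lam * UU (b 0) (b 0 + b 1) ρ) atTop (𝓝 0) := by
    have h := ((((ta.add (sh α 1 ta)).const_mul (E * ρ ^ 2)).sub
      (((tb.add (sh β 1 tb)).add (sh β 2 tb)).const_mul ρ)).sub
      (((tb.add (sh β 1 tb)).add (sh β 2 tb)).add (sh β 3 tb))).const_mul lam
    simp only [add_zero, mul_zero, sub_zero] at h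
    exact h.congr fun N => (d2 N).symm
  have hl0 : lam ≠ 0 := by
    rintro rfl
    simp at hl
  constructor
  · have t3 : Tendsto (fun _ : ℕ => -lam * (qq lam ρ * UU (a 0) (a 1) ρ
        + E * ρ ^ 2 * UU (b 0) (b 0 + b 1) ρ)) atTop (𝓝 0) := by
      have h := (t1.const_mul (qq lam ρ)).add (t2.const_mul (E * ρ ^ 2))
      simp only [mul_zero, add_zero] at h
      refine h.congr fun N => ?_
      linear_combination A N * hr
    have h := tendsto_nhds_unique t3 tendsto_const_nhds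
    have h4 := mul_eq_zero.1 h.symm
    rcases h4 with h4 | h4
    · exact absurd (neg_eq_zero.1 h4) hl0
    · exact h4
  · have t3 : Tendsto (fun _ : ℕ => -lam * (pp lam ρ * UU (b 0) (b 0 + b 1) ρ
        + E * ρ ^ 2 * lam * UU (a 0) (a 1) ρ)) atTop (𝓝 0) := by
      have h := (t1.const_mul (lam * E * ρ ^ 2)).add (t2.const_mul (pp lam ρ))
      simp only [mul_zero, add_zero] at h
      refine h.congr fun N => ?_
      linear_combination B N * hr
    have h := tendsto_nhds_unique t3 tendsto_const_nhds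
    have h4 := mul_eq_zero.1 h.symm
    rcases h4 with h4 | h4
    · exact absurd (neg_eq_zero.1 h4) hl0
    · exact h4

open Polynomial in
/-- A root in the closed disc close to `α`. -/
theorem near_root_disc (lam : ℂ) (E : ℝ) (hl : lam * (starRingEnd ℂ) lam = 1) (α : ℂ)
    (hα : ‖α‖ ≤ 1) : ∃ ρ : ℂ, ‖ρ‖ ≤ 1 ∧ pp lam ρ * qq lam ρ = lam * (E : ℂ) ^ 2 * ρ ^ 4 ∧
      ‖ρ - α‖ ^ 8 ≤ ‖pp lam α * qq lam α - lam * (E : ℂ) ^ 2 * α ^ 4‖ := by
  have hp : ((X ^ 4 + X ^ 3 + C lam) * (X ^ 4 + C lam * X + C lam)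
      - C (lam * (E : ℂ) ^ 2) * X ^ 4 : ℂ[X]).Monic := by
    have m1 : (X ^ 4 + X ^ 3 + C lam : ℂ[X]).Monic := by monicity!
    have m2 : (X ^ 4 + C lam * X + C lam : ℂ[X]).Monic := by monicity!
    have n1 : (X ^ 4 + X ^ 3 + C lam : ℂ[X]).natDegree = 4 := by compute_degree!
    have n2 : (X ^ 4 + C lam * X + C lam : ℂ[X]).natDegree = 4 := by compute_degree!
    apply (m1.mul m2).sub_of_left
    refine lt_of_le_of_lt (degree_C_mul_X_pow_le 4 _) ?_
    rw [degree_eq_natDegree (m1.mul m2).ne_zero, m1.natDegree_mul m2, n1, n2]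
    norm_cast
  have hn : ((X ^ 4 + X ^ 3 + C lam) * (X ^ 4 + C lam * X + C lam)
      - C (lam * (E : ℂ) ^ 2) * X ^ 4 : ℂ[X]).natDegree = 8 := by
    have m1 : (X ^ 4 + X ^ 3 + C lam : ℂ[X]).Monic := by monicity!
    have m2 : (X ^ 4 + C lam * X + C lam : ℂ[X]).Monic := by monicity!
    have n1 : (X ^ 4 + X ^ 3 + C lam : ℂ[X]).natDegree = 4 := by compute_degree!
    have n2 : (X ^ 4 + C lam * X + C lam : ℂ[X]).natDegree = 4 := by compute_degree!
    rw [natDegree_sub_eq_left_of_natDegree_lt]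
    · rw [m1.natDegree_mul m2, n1, n2]
    · rw [m1.natDegree_mul m2, n1, n2]
      exact lt_of_le_of_lt (natDegree_C_mul_X_pow_le _ 4) (by norm_num)
  have hev : ∀ z : ℂ, ((X ^ 4 + X ^ 3 + C lam) * (X ^ 4 + C lam * X + C lam)
      - C (lam * (E : ℂ) ^ 2) * X ^ 4 : ℂ[X]).eval z =
      pp lam z * qq lam z - lam * (E : ℂ) ^ 2 * z ^ 4 := by
    intro z
    simp only [eval_add, eval_sub, eval_mul, eval_pow, eval_X, eval_C, pp, qq]
  obtain ⟨ρ, h1, h2⟩ := near_root_monic _ hp 8 hn (by norm_num) α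
  rw [hev] at h1 h2
  by_cases hρ : ‖ρ‖ ≤ 1
  · exact ⟨ρ, hρ, sub_eq_zero.1 h1, h2⟩
  push Not at hρ
  have hρ0 : ρ ≠ 0 := fun h => by
    rw [h, norm_zero] at hρ
    linarith
  have hc0 : (starRingEnd ℂ) ρ ≠ 0 := (_root_.map_ne_zero _).2 hρ0
  have hcn : ‖(starRingEnd ℂ) ρ‖ = ‖ρ‖ := Complex.norm_conj ρ
  refine ⟨((starRingEnd ℂ) ρ)⁻¹, ?_, ?_, le_trans ?_ h2⟩
  · rw [norm_inv, hcn]
    exact inv_le_one_of_one_le₀ hρ.le
  · have h3 := congrArg (starRingEnd ℂ) h1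
    simp only [pp, qq, map_sub, map_mul, map_add, map_pow, Complex.conj_ofReal, map_zero] at h3
    set w := (starRingEnd ℂ) ρ with hw
    set l' := (starRingEnd ℂ) lam with hl'
    simp only [pp, qq]
    field_simp
    linear_combination lam ^ 2 * h3 - (lam * (w ^ 4 + w ^ 3) * (w + 1) + lam * w ^ 4
      + (w + 1) * (1 + lam * l') - lam * (E : ℂ) ^ 2 * w ^ 4) * hl
  · apply pow_le_pow_left₀ (norm_nonneg _)
    have h3 : ‖((starRingEnd ℂ) ρ)⁻¹ - α‖ = ‖1 - (starRingEnd ℂ) ρ * α‖ / ‖ρ‖ := by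
      rw [← hcn, ← norm_div]
      congr 1
      field_simp
    rw [h3, div_le_iff₀ (by linarith)]
    rw [← sq_le_sq₀ (norm_nonneg _) (by positivity), mul_pow, ← Complex.normSq_eq_norm_sq,
      ← Complex.normSq_eq_norm_sq, ← Complex.normSq_eq_norm_sq]
    have h4 : 1 ≤ Complex.normSq ρ := by
      rw [Complex.normSq_eq_norm_sq]
      exact one_le_pow₀ hρ.le
    have h5 : Complex.normSq α ≤ 1 := by
      rw [Complex.normSq_eq_norm_sq]
      exact pow_le_one₀ (norm_nonneg _) hα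
    have h6 : Complex.normSq (1 - (starRingEnd ℂ) ρ * α) =
        Complex.normSq (ρ - α) + (1 - Complex.normSq ρ) * (1 - Complex.normSq α) := by
      simp only [Complex.normSq_apply, Complex.sub_re, Complex.sub_im, Complex.mul_re,
        Complex.mul_im, Complex.conj_re, Complex.conj_im, Complex.one_re, Complex.one_im]
      ring
    rw [h6]
    have h7 := Complex.normSq_nonneg (ρ - α)
    nlinarith

/-- The conditions on the data of an edge state, for one pair `(λ, E)`. -/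
def Cond (lam : ℂ) (E : ℝ) (u0 u1 w0 w1 : ℂ) : Prop :=
  ∀ ρ : ℂ, ‖ρ‖ ≤ 1 → pp lam ρ * qq lam ρ = lam * (E : ℂ) ^ 2 * ρ ^ 4 →
    qq lam ρ * UU u0 u1 ρ + E * ρ ^ 2 * UU w0 (w0 + w1) ρ = 0 ∧
    pp lam ρ * UU w0 (w0 + w1) ρ + E * ρ ^ 2 * lam * UU u0 u1 ρ = 0

theorem tendsto_of_pow {x : ℕ → ℝ} (hx : ∀ n, 0 ≤ x n) (h : Tendsto (fun n => x n ^ 8) atTop (𝓝 0)) :
    Tendsto x atTop (𝓝 0) := by
  rw [Metric.tendsto_atTop] at h ⊢
  intro e he
  obtain ⟨N, hN⟩ := h (e ^ 8) (by positivity)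
  refine ⟨N, fun n hn => ?_⟩
  have h1 := hN n hn
  rw [Real.dist_eq, sub_zero, abs_of_nonneg (pow_nonneg (hx n) 8)] at h1
  rw [Real.dist_eq, sub_zero, abs_of_nonneg (hx n)]
  exact lt_of_pow_lt_pow_left₀ 8 he.le h1

/-- The core of the gap. -/
theorem core (lam : ℕ → ℂ) (E : ℕ → ℝ) (u0 u1 w0 w1 : ℕ → ℂ) (l a0 a1 b0 b1 : ℂ)
    (hl : ∀ n, lam n * (starRingEnd ℂ) (lam n) = 1) (hE : ∀ n, E n ≠ 0)
    (tl : Tendsto lam atTop (𝓝 l)) (tE : Tendsto E atTop (𝓝 0))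
    (tu0 : Tendsto u0 atTop (𝓝 a0)) (tu1 : Tendsto u1 atTop (𝓝 a1))
    (tw0 : Tendsto w0 atTop (𝓝 b0)) (tw1 : Tendsto w1 atTop (𝓝 b1))
    (hc : ∀ n, Cond (lam n) (E n) (u0 n) (u1 n) (w0 n) (w1 n))
    (hll : l ^ 2 + l + 1 = 0) (hl1 : ‖l‖ = 1) : a0 = 0 ∧ a1 = 0 ∧ b0 = 0 ∧ b1 = 0 := by
  have hl0 : l ≠ 0 := fun h => by rw [h, norm_zero] at hl1; exact zero_ne_one hl1
  have tEc : Tendsto (fun n => ((E n : ℝ) : ℂ)) atTop (𝓝 0) := by
    have := (Complex.continuous_ofReal.tendsto 0).comp tE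
    simpa [Function.comp_def] using this
  -- approximating roots
  have approx : ∀ α : ℂ, ‖α‖ ≤ 1 → pp l α * qq l α = 0 → ∃ ρ : ℕ → ℂ, Tendsto ρ atTop (𝓝 α) ∧
      ∀ n, qq (lam n) (ρ n) * UU (u0 n) (u1 n) (ρ n)
          + E n * ρ n ^ 2 * UU (w0 n) (w0 n + w1 n) (ρ n) = 0 ∧
        pp (lam n) (ρ n) * UU (w0 n) (w0 n + w1 n) (ρ n)
          + E n * ρ n ^ 2 * lam n * UU (u0 n) (u1 n) (ρ n) = 0 := by
    intro α hα hz
    choose ρ h1 h2 h3 using fun n => near_root_disc (lam n) (E n) (hl n) α hα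
    refine ⟨ρ, ?_, fun n => hc n (ρ n) (h1 n) (h2 n)⟩
    rw [tendsto_iff_norm_sub_tendsto_zero]
    apply tendsto_of_pow (fun n => norm_nonneg _)
    refine squeeze_zero (fun n => by positivity) h3 ?_
    have t1 : Tendsto (fun n => pp (lam n) α * qq (lam n) α
        - lam n * ((E n : ℝ) : ℂ) ^ 2 * α ^ 4) atTop
        (𝓝 ((α ^ 4 + α ^ 3 + l) * (α ^ 4 + l * α + l) - l * 0 ^ 2 * α ^ 4)) := by
      refine Tendsto.sub (Tendsto.mul (tl.const_add _) ?_) ?_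
      · exact ((tl.mul_const α).const_add _).add tl
      · exact (tl.mul (tEc.pow 2)).mul_const _
    have e : (α ^ 4 + α ^ 3 + l) * (α ^ 4 + l * α + l) - l * 0 ^ 2 * α ^ 4 = 0 := by
      simp only [pp, qq] at hz
      linear_combination hz
    rw [e] at t1
    simpa using t1.norm
  -- convergence of the polynomials along the roots
  have tp : ∀ (α : ℂ) (ρ : ℕ → ℂ), Tendsto ρ atTop (𝓝 α) →
      Tendsto (fun n => pp (lam n) (ρ n)) atTop (𝓝 (pp l α)) := fun α ρ h =>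
    ((h.pow 4).add (h.pow 3)).add tl
  have tq : ∀ (α : ℂ) (ρ : ℕ → ℂ), Tendsto ρ atTop (𝓝 α) →
      Tendsto (fun n => qq (lam n) (ρ n)) atTop (𝓝 (qq l α)) := fun α ρ h =>
    ((h.pow 4).add (tl.mul h)).add tl
  have tU : ∀ (α : ℂ) (ρ : ℕ → ℂ), Tendsto ρ atTop (𝓝 α) →
      Tendsto (fun n => UU (u0 n) (u1 n) (ρ n)) atTop (𝓝 (UU a0 a1 α)) := fun α ρ h =>
    tu0.add (tu1.mul h)
  have tV : ∀ (α : ℂ) (ρ : ℕ → ℂ), Tendsto ρ atTop (𝓝 α) →
      Tendsto (fun n => UU (w0 n) (w0 n + w1 n) (ρ n)) atTop (𝓝 (UU b0 (b0 + b1) α)) := fun α ρ h =>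
    tw0.add ((tw0.add tw1).mul h)
  -- the roots of `p` at the limit
  obtain ⟨μ1, μ2, ν1, ν2, m1, m2, hf⟩ := two_inside l hl1
  set ζ : ℂ := l ^ 2 with hζ
  have l3 : l ^ 3 = 1 := by linear_combination (l - 1) * hll
  have ζ1 : ‖ζ‖ = 1 := by rw [hζ, norm_pow, hl1, one_pow]
  have pζ : ζ ^ 4 + ζ ^ 3 + l = 0 := by
    rw [hζ]
    linear_combination (l ^ 5 + l ^ 3 + l ^ 2 + 1) * l3 + hll
  have ζν : ∃ ν : ℂ, ∀ z : ℂ, z ^ 4 + z ^ 3 + l = (z - μ1) * (z - μ2) * (z - ζ) * (z - ν) := by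
    have h := hf ζ
    rw [pζ] at h
    have n1 : ζ - μ1 ≠ 0 := fun h0 => by
      rw [sub_eq_zero.1 h0] at ζ1; linarith
    have n2 : ζ - μ2 ≠ 0 := fun h0 => by
      rw [sub_eq_zero.1 h0] at ζ1; linarith
    rcases mul_eq_zero.1 h.symm with h | h
    · rcases mul_eq_zero.1 h with h | h
      · rcases mul_eq_zero.1 h with h | h
        · exact absurd h n1
        · exact absurd h n2
      · exact ⟨ν2, fun z => by rw [hf, sub_eq_zero.1 h]⟩
    · exact ⟨ν1, fun z => by rw [hf, sub_eq_zero.1 h]; ring⟩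
  obtain ⟨ν, hν⟩ := ζν
  obtain ⟨-, -, -, v4⟩ := vieta hν
  have ν1' : 1 < ‖ν‖ := by
    have h1 : ‖μ1‖ * ‖μ2‖ * ‖ζ‖ * ‖ν‖ = 1 := by
      rw [← norm_mul, ← norm_mul, ← norm_mul, v4, hl1]
    rw [ζ1, mul_one] at h1
    by_contra hcon
    push Not at hcon
    have h2 : ‖μ1‖ * ‖μ2‖ < 1 := by
      have := norm_nonneg μ1
      have := norm_nonneg μ2
      nlinarith
    have h3 := norm_nonneg ν
    have h4 : 0 ≤ ‖μ1‖ * ‖μ2‖ := by positivity
    nlinarith
  have ν0 : ν ≠ 0 := fun h => by rw [h, norm_zero] at ν1'; linarith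
  set η : ℂ := ((starRingEnd ℂ) ν)⁻¹ with hη
  have η1 : ‖η‖ < 1 := by
    rw [hη, norm_inv, Complex.norm_conj]
    exact inv_lt_one_of_one_lt₀ ν1'
  have lc : l * (starRingEnd ℂ) l = 1 := by
    rw [Complex.mul_conj, Complex.normSq_eq_norm_sq, hl1]; norm_num
  have qη : qq l η = 0 := by
    have h := hν ν
    have h2 := congrArg (starRingEnd ℂ) h
    simp only [map_add, map_pow, sub_self, mul_zero, map_zero] at h2
    have hw0 : (starRingEnd ℂ) ν ≠ 0 := (_root_.map_ne_zero _).2 ν0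
    rw [qq, hη]
    set w := (starRingEnd ℂ) ν with hw
    field_simp
    linear_combination l * h2 - lc
  -- `p` and `q` have no common root in the open disc
  have nocommon : ∀ z : ℂ, ‖z‖ < 1 → pp l z = 0 → qq l z = 0 → False := by
    intro z hz h1 h2
    have h3 : z * (l - z ^ 2) = 0 := by
      rw [pp] at h1
      rw [qq] at h2
      linear_combination h2 - h1
    rcases mul_eq_zero.1 h3 with h4 | h4
    · rw [pp, h4] at h1
      apply hl0
      linear_combination h1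
    · have h5 : ‖z ^ 2‖ = 1 := by rw [← sub_eq_zero.1 h4, hl1]
      rw [norm_pow] at h5
      have h6 := norm_nonneg z
      nlinarith
  have pμ1 : pp l μ1 = 0 := by rw [pp, hf]; ring
  have pμ2 : pp l μ2 = 0 := by rw [pp, hf]; ring
  have qμ1 : qq l μ1 ≠ 0 := fun h => nocommon _ m1 pμ1 h
  have qμ2 : qq l μ2 ≠ 0 := fun h => nocommon _ m2 pμ2 h
  have pη : pp l η ≠ 0 := fun h => nocommon _ η1 h qη
  have qζ : qq l ζ = 0 := by
    rw [qq, hζ]
    linear_combination (l ^ 5 + l ^ 2 + 1) * l3 + hll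
  have pζ' : pp l ζ = 0 := pζ
  have ζ0 : ζ ≠ 0 := pow_ne_zero 2 hl0
  -- the roots inside are distinct
  have hne : μ1 ≠ μ2 := by
    intro h12
    rw [← h12] at hf
    -- derivative at the double root
    have e1 : ∀ h : ℂ, h ≠ 0 → 4 * μ1 ^ 3 + 3 * μ1 ^ 2 + h * (6 * μ1 ^ 2 + 3 * μ1)
        + h ^ 2 * (4 * μ1 + 1) + h ^ 3 = h * (h + μ1 - ν1) * (h + μ1 - ν2) := by
      intro h h0
      have a := hf (μ1 + h)
      have b := hf μ1
      have : h * (4 * μ1 ^ 3 + 3 * μ1 ^ 2 + h * (6 * μ1 ^ 2 + 3 * μ1)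
        + h ^ 2 * (4 * μ1 + 1) + h ^ 3) = h * (h * (h + μ1 - ν1) * (h + μ1 - ν2)) := by
        linear_combination a - b
      exact mul_left_cancel₀ h0 this
    have d : 4 * μ1 ^ 3 + 3 * μ1 ^ 2 = 0 := by
      have x1 := e1 1 one_ne_zero
      have x2 := e1 (-1) (by norm_num)
      have x3 := e1 2 two_ne_zero
      have x4 := e1 (-2) (by norm_num)
      linear_combination (2 / 3 : ℂ) * x1 + (2 / 3 : ℂ) * x2 - (1 / 6 : ℂ) * x3 - (1 / 6 : ℂ) * x4
    have d2 : μ1 ^ 2 * (4 * μ1 + 3) = 0 := by linear_combination d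
    rw [pp] at pμ1
    rcases mul_eq_zero.1 d2 with h | h
    · apply hl0
      linear_combination pμ1 - (μ1 ^ 2 + μ1) * h
    · have h2 : μ1 = -3 / 4 := by linear_combination h / 4
      rw [h2] at pμ1
      have h3 : l = ((27 / 256 : ℝ) : ℂ) := by
        push_cast
        linear_combination pμ1
      rw [h3, Complex.norm_real, Real.norm_eq_abs, abs_of_pos (by norm_num)] at hl1
      norm_num at hl1
  -- sequences
  obtain ⟨r, tr, hr⟩ := approx μ1 m1.le (by rw [pμ1, zero_mul])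
  obtain ⟨s, ts, hs⟩ := approx μ2 m2.le (by rw [pμ2, zero_mul])
  obtain ⟨t, tt, ht⟩ := approx η η1.le (by rw [qη, mul_zero])
  obtain ⟨v, tv, hv⟩ := approx ζ ζ1.le (by rw [pζ', zero_mul])
  -- `V(η) = 0`
  have Vη : UU b0 (b0 + b1) η = 0 := by
    have h1 := ((tp η t tt).mul (tV η t tt)).add
      ((((tEc.mul (tt.pow 2)).mul tl).mul (tU η t tt)))
    have h2 : (fun n => pp (lam n) (t n) * UU (w0 n) (w0 n + w1 n) (t n)
          + ((E n : ℝ) : ℂ) * t n ^ 2 * lam n * UU (u0 n) (u1 n) (t n)) = fun _ => (0 : ℂ) := by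
      funext n
      exact (ht n).2
    rw [h2] at h1
    have h3 := tendsto_nhds_unique h1 tendsto_const_nhds
    rw [zero_mul, zero_mul, zero_mul, add_zero] at h3
    exact (mul_eq_zero.1 h3).resolve_left pη
  -- `U / E` converges at the two roots inside
  have conv : ∀ (μ : ℂ) (r : ℕ → ℂ), Tendsto r atTop (𝓝 μ) → qq l μ ≠ 0 →
      (∀ n, qq (lam n) (r n) * UU (u0 n) (u1 n) (r n)
          + E n * r n ^ 2 * UU (w0 n) (w0 n + w1 n) (r n) = 0) →
      Tendsto (fun n => UU (u0 n) (u1 n) (r n) / E n) atTop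
        (𝓝 (-(μ ^ 2 * UU b0 (b0 + b1) μ) / qq l μ)) := by
    intro μ r tr hq hr
    have h1 := ((tr.pow 2).mul (tV μ r tr)).neg.div (tq μ r tr) hq
    have h2 : ∀ᶠ n in atTop, qq (lam n) (r n) ≠ 0 := (tq μ r tr).eventually_ne hq
    refine h1.congr' ?_
    filter_upwards [h2] with n hn
    have hEn : ((E n : ℝ) : ℂ) ≠ 0 := Complex.ofReal_ne_zero.2 (hE n)
    simp only [Pi.div_apply]
    rw [div_eq_div_iff hn hEn]
    linear_combination -hr n
  have c1 := conv μ1 r tr qμ1 fun n => (hr n).1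
  have c2 := conv μ2 s ts qμ2 fun n => (hs n).1
  set L1 := -(μ1 ^ 2 * UU b0 (b0 + b1) μ1) / qq l μ1
  set L2 := -(μ2 ^ 2 * UU b0 (b0 + b1) μ2) / qq l μ2
  have hd : μ1 - μ2 ≠ 0 := sub_ne_zero.2 hne
  have cu1 : Tendsto (fun n => u1 n / E n) atTop (𝓝 ((L1 - L2) / (μ1 - μ2))) := by
    have h1 := (c1.sub c2).div (tr.sub ts) hd
    have h2 : ∀ᶠ n in atTop, r n - s n ≠ 0 := (tr.sub ts).eventually_ne hd
    refine h1.congr' ?_
    filter_upwards [h2] with n hn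
    have hEn : ((E n : ℝ) : ℂ) ≠ 0 := Complex.ofReal_ne_zero.2 (hE n)
    simp only [Pi.div_apply, UU]
    field_simp
    ring
  have cu0 : Tendsto (fun n => u0 n / E n) atTop (𝓝 (L1 - (L1 - L2) / (μ1 - μ2) * μ1)) := by
    have h1 := c1.sub (cu1.mul tr)
    refine h1.congr fun n => ?_
    have hEn : ((E n : ℝ) : ℂ) ≠ 0 := Complex.ofReal_ne_zero.2 (hE n)
    simp only [UU]
    field_simp
    ring
  have back : ∀ (f : ℕ → ℂ) (x y : ℂ), Tendsto (fun n => f n / E n) atTop (𝓝 x) →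
      Tendsto f atTop (𝓝 y) → y = 0 := by
    intro f x y h1 h2
    have h3 := h1.mul tEc
    rw [mul_zero] at h3
    refine tendsto_nhds_unique h2 (h3.congr fun n => ?_)
    have hEn : ((E n : ℝ) : ℂ) ≠ 0 := Complex.ofReal_ne_zero.2 (hE n)
    field_simp
  have ha0 : a0 = 0 := back u0 _ _ cu0 tu0
  have ha1 : a1 = 0 := back u1 _ _ cu1 tu1
  -- `V(ζ) = 0`
  have Vζ : UU b0 (b0 + b1) ζ = 0 := by
    have h1 := ((tq ζ v tv).mul (cu0.add (cu1.mul tv))).add ((tv.pow 2).mul (tV ζ v tv))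
    have h2 : (fun n => qq (lam n) (v n) * (u0 n / E n + u1 n / E n * v n)
        + v n ^ 2 * UU (w0 n) (w0 n + w1 n) (v n)) = fun _ => (0 : ℂ) := by
      funext n
      have h3 := (hv n).1
      have hEn : ((E n : ℝ) : ℂ) ≠ 0 := Complex.ofReal_ne_zero.2 (hE n)
      have h4 : ((E n : ℝ) : ℂ) * (qq (lam n) (v n) * (u0 n / E n + u1 n / E n * v n)
        + v n ^ 2 * UU (w0 n) (w0 n + w1 n) (v n)) = 0 := by
        rw [← h3]
        simp only [UU]
        field_simp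
      exact (mul_eq_zero.1 h4).resolve_left hEn
    rw [h2] at h1
    have h3 := tendsto_nhds_unique h1 tendsto_const_nhds
    rw [qζ, zero_mul, zero_add] at h3
    exact (mul_eq_zero.1 h3).resolve_left (pow_ne_zero 2 ζ0)
  have hd2 : η - ζ ≠ 0 := fun h => by
    rw [sub_eq_zero.1 h, ζ1] at η1
    exact lt_irrefl _ η1
  rw [UU] at Vη Vζ
  have hb : b0 + b1 = 0 := by
    have h1 : (η - ζ) * (b0 + b1) = 0 := by linear_combination Vη - Vζ
    exact (mul_eq_zero.1 h1).resolve_left hd2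
  rw [hb, zero_mul, add_zero] at Vη
  refine ⟨ha0, ha1, Vη, ?_⟩
  rw [Vη, zero_add] at hb
  exact hb

/-- An edge state with vanishing first data vanishes. -/
theorem data_ne (lam : ℂ) (hl : ‖lam‖ = 1) (E : ℂ) (a b : H) (h1 : T lam a = E • b)
    (h2 : T' lam b = E • a) (a0 : a 0 = 0) (a1 : a 1 = 0) (b0 : b 0 = 0) (b1 : b 1 = 0) :
    a = 0 ∧ b = 0 := by
  have hl0 : lam ≠ 0 := fun h => by rw [h, norm_zero] at hl; exact zero_ne_one hl
  have ea : ∀ n, E * b n = T lam a n := fun n => by rw [h1, coe_smul]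
  have eb : ∀ n, E * a n = T' lam b n := fun n => by rw [h2, coe_smul]
  have a2 : a 2 = 0 := by
    have h := ea 0
    rw [T_coe_zero, b0, mul_zero] at h
    exact (mul_eq_zero.1 h.symm).resolve_left hl0
  have a3 : a 3 = 0 := by
    have h := ea 1
    rw [T_coe_one, b1, a0, mul_zero, zero_add] at h
    exact (mul_eq_zero.1 h.symm).resolve_left hl0
  have b2 : b 2 = 0 := by
    have h := eb 0
    rw [T'_coe_zero, a0, b1, mul_zero, zero_add] at h
    exact h.symm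
  have b3 : b 3 = 0 := by
    have h := eb 1
    rw [T'_coe_one, a1, b2, mul_zero, zero_add] at h
    exact h.symm
  have key : ∀ n, a n = 0 ∧ a (n + 1) = 0 ∧ a (n + 2) = 0 ∧ a (n + 3) = 0 ∧
      b n = 0 ∧ b (n + 1) = 0 ∧ b (n + 2) = 0 ∧ b (n + 3) = 0 := by
    intro n
    induction n with
    | zero => exact ⟨a0, a1, a2, a3, b0, b1, b2, b3⟩
    | succ n ih =>
      obtain ⟨i0, i1, i2, i3, j0, j1, j2, j3⟩ := ih
      have i4 : a (n + 4) = 0 := by
        have h := ea (n + 2)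
        rw [T_coe, i0, i1, j2, mul_zero, zero_add, zero_add] at h
        exact (mul_eq_zero.1 h.symm).resolve_left hl0
      have j4 : b (n + 4) = 0 := by
        have h := eb (n + 2)
        rw [T'_coe, i2, j3, j0, mul_zero, mul_zero, zero_add, add_zero] at h
        exact h.symm
      exact ⟨i1, i2, i3, i4, j1, j2, j3, j4⟩
  exact ⟨ext' fun n => (key n).1, ext' fun n => (key n).2.2.2.2.1⟩

theorem norm_eq (lam : ℂ) (E : ℝ) (hE : E ≠ 0) (a b : H) (h1 : T lam a = (E : ℂ) • b)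
    (h2 : T' lam b = (E : ℂ) • a) : ‖a‖ = ‖b‖ := by
  have h := inner_T lam a b
  rw [h1, h2, inner_smul_left, inner_smul_right, Complex.conj_ofReal] at h
  have h3 := mul_left_cancel₀ (Complex.ofReal_ne_zero.2 hE) h
  rw [inner_self_eq_norm_sq_to_K, inner_self_eq_norm_sq_to_K] at h3
  have h4 : ‖b‖ ^ 2 = ‖a‖ ^ 2 := by exact_mod_cast h3
  exact ((sq_eq_sq₀ (norm_nonneg _) (norm_nonneg _)).1 h4).symm

/-- The non-zero edge energies are bounded away from zero, uniformly in `λ`. -/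
theorem gap : ∃ ε : ℝ, 0 < ε ∧ ∀ lam : ℂ, ‖lam‖ = 1 → ∀ (E : ℝ) (a b : H), (a ≠ 0 ∨ b ≠ 0) →
    T lam a = (E : ℂ) • b → T' lam b = (E : ℂ) • a → E = 0 ∨ ε ≤ |E| := by
  by_contra hcon
  push Not at hcon
  have hex : ∀ n : ℕ, ∃ (lam : ℂ) (E : ℝ) (a b : H), ‖lam‖ = 1 ∧ (a ≠ 0 ∨ b ≠ 0) ∧
      T lam a = (E : ℂ) • b ∧ T' lam b = (E : ℂ) • a ∧ E ≠ 0 ∧ |E| < 1 / ((n : ℝ) + 1) := by
    intro n
    obtain ⟨lam, hl, E, a, b, h1, h2, h3, h4, h5⟩ := hcon (1 / ((n : ℝ) + 1)) (by positivity)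
    exact ⟨lam, E, a, b, hl, h1, h2, h3, h4, h5⟩
  choose lam E a b hl hab hT hT' hE hEn using hex
  have hlc : ∀ n, lam n * (starRingEnd ℂ) (lam n) = 1 := fun n => by
    rw [Complex.mul_conj, Complex.normSq_eq_norm_sq, hl]; norm_num
  have tE : Tendsto E atTop (𝓝 0) := by
    rw [tendsto_zero_iff_abs_tendsto_zero]
    exact squeeze_zero (fun n => abs_nonneg _) (fun n => (hEn n).le)
      (tendsto_one_div_add_atTop_nhds_zero_nat (𝕜 := ℝ))
  set d : ℕ → (ℂ × ℂ) × (ℂ × ℂ) := fun n => ((a n 0, a n 1), (b n 0, b n 1)) with hd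
  have hd0 : ∀ n, d n ≠ 0 := by
    intro n h
    have h1 : a n 0 = 0 := congrArg (fun x : (ℂ × ℂ) × (ℂ × ℂ) => x.1.1) h
    have h2 : a n 1 = 0 := congrArg (fun x : (ℂ × ℂ) × (ℂ × ℂ) => x.1.2) h
    have h3 : b n 0 = 0 := congrArg (fun x : (ℂ × ℂ) × (ℂ × ℂ) => x.2.1) h
    have h4 : b n 1 = 0 := congrArg (fun x : (ℂ × ℂ) × (ℂ × ℂ) => x.2.2) h
    obtain ⟨h5, h6⟩ := data_ne (lam n) (hl n) (E n) (a n) (b n) (hT n) (hT' n) h1 h2 h3 h4
    rcases hab n with h | h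
    · exact h h5
    · exact h h6
  set D : ℕ → (ℂ × ℂ) × (ℂ × ℂ) := fun n => ((‖d n‖⁻¹ : ℝ) : ℂ) • d n with hD
  have hD1 : ∀ n, ‖D n‖ = 1 := fun n => by
    have h0 : ‖d n‖ ≠ 0 := norm_ne_zero_iff.2 (hd0 n)
    rw [hD]
    simp only
    rw [norm_smul, Complex.norm_real, norm_inv, norm_norm, inv_mul_cancel₀ h0]
  have hb : Bornology.IsBounded (Set.range fun n => (lam n, D n)) := by
    rw [isBounded_iff_forall_norm_le]
    refine ⟨1, ?_⟩
    rintro _ ⟨n, rfl⟩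
    exact max_le (hl n).le (hD1 n).le
  obtain ⟨⟨l, D0⟩, -, φ, hφ, hlim⟩ := tendsto_subseq_of_bounded hb (fun n => Set.mem_range_self n)
  have tl : Tendsto (fun n => lam (φ n)) atTop (𝓝 l) := (continuous_fst.tendsto _).comp hlim
  have tD : Tendsto (fun n => D (φ n)) atTop (𝓝 D0) := (continuous_snd.tendsto _).comp hlim
  have tEφ : Tendsto (fun n => E (φ n)) atTop (𝓝 0) := tE.comp hφ.tendsto_atTop
  have hl1 : ‖l‖ = 1 := by
    have h1 := tl.norm
    have h2 : (fun n => ‖lam (φ n)‖) = fun _ => (1 : ℝ) := by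
      funext n; exact hl _
    rw [h2] at h1
    exact tendsto_nhds_unique h1 tendsto_const_nhds |>.symm ▸ rfl
  by_cases hll : l ^ 2 + l + 1 = 0
  · have hcond : ∀ n, Cond (lam (φ n)) (E (φ n)) (D (φ n)).1.1 (D (φ n)).1.2 (D (φ n)).2.1
        (D (φ n)).2.2 := by
      intro n ρ h1 h2
      obtain ⟨h3, h4⟩ := bc (lam (φ n)) (E (φ n)) (a (φ n)) (b (φ n)) (hT _) (hT' _) (hlc _) ρ h1 h2
      have e1 : (D (φ n)).1.1 = ((‖d (φ n)‖⁻¹ : ℝ) : ℂ) * a (φ n) 0 := rfl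
      have e2 : (D (φ n)).1.2 = ((‖d (φ n)‖⁻¹ : ℝ) : ℂ) * a (φ n) 1 := rfl
      have e3 : (D (φ n)).2.1 = ((‖d (φ n)‖⁻¹ : ℝ) : ℂ) * b (φ n) 0 := rfl
      have e4 : (D (φ n)).2.2 = ((‖d (φ n)‖⁻¹ : ℝ) : ℂ) * b (φ n) 1 := rfl
      rw [e1, e2, e3, e4]
      simp only [UU] at h3 h4 ⊢
      constructor
      · linear_combination ((‖d (φ n)‖⁻¹ : ℝ) : ℂ) * h3
      · linear_combination ((‖d (φ n)‖⁻¹ : ℝ) : ℂ) * h4
    obtain ⟨z1, z2, z3, z4⟩ := core (fun n => lam (φ n)) (fun n => E (φ n))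
      (fun n => (D (φ n)).1.1) (fun n => (D (φ n)).1.2) (fun n => (D (φ n)).2.1)
      (fun n => (D (φ n)).2.2) l D0.1.1 D0.1.2 D0.2.1 D0.2.2 (fun n => hlc _) (fun n => hE _)
      tl tEφ ((continuous_fst.tendsto _).comp ((continuous_fst.tendsto _).comp tD))
      ((continuous_snd.tendsto _).comp ((continuous_fst.tendsto _).comp tD))
      ((continuous_fst.tendsto _).comp ((continuous_snd.tendsto _).comp tD))
      ((continuous_snd.tendsto _).comp ((continuous_snd.tendsto _).comp tD)) hcond hll hl1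
    have hD00 : D0 = 0 := Prod.ext (Prod.ext z1 z2) (Prod.ext z3 z4)
    have h1 := tD.norm
    have h2 : (fun n => ‖D (φ n)‖) = fun _ => (1 : ℝ) := by
      funext n; exact hD1 _
    rw [h2, hD00, norm_zero] at h1
    exact one_ne_zero (tendsto_nhds_unique tendsto_const_nhds h1)
  · obtain ⟨δ, hδ, hlow⟩ := T_lower l hl1 hll
    have hle : ∀ n, δ ≤ |E (φ n)| + ‖l - lam (φ n)‖ := by
      intro n
      have h1 := norm_eq (lam (φ n)) (E (φ n)) (hE _) (a (φ n)) (b (φ n)) (hT _) (hT' _)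
      have h2 : a (φ n) ≠ 0 := by
        rcases hab (φ n) with h | h
        · exact h
        · intro h0
          rw [h0, norm_zero] at h1
          exact h (norm_eq_zero.1 h1.symm)
      have h3 : 0 < ‖a (φ n)‖ := norm_pos_iff.2 h2
      have h4 := hlow (a (φ n))
      have h5 := norm_T_sub l (lam (φ n)) (a (φ n))
      have h6 : ‖T (lam (φ n)) (a (φ n))‖ = |E (φ n)| * ‖a (φ n)‖ := by
        rw [hT, norm_smul, Complex.norm_real, Real.norm_eq_abs, h1]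
      have h7 := norm_sub_norm_le (T l (a (φ n))) (T (lam (φ n)) (a (φ n)))
      have h8 : δ * ‖a (φ n)‖ ≤ (|E (φ n)| + ‖l - lam (φ n)‖) * ‖a (φ n)‖ := by
        linarith
      exact le_of_mul_le_mul_right h8 h3
    have ht : Tendsto (fun n => |E (φ n)| + ‖l - lam (φ n)‖) atTop (𝓝 0) := by
      have h1 := tEφ.abs
      have h2 := (tl.const_sub l).norm
      rw [sub_self, norm_zero] at h2
      rw [abs_zero] at h1
      simpa using h1.add h2
    have := ge_of_tendsto' ht hle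
    linarith

end Pool.Agent.Q235.HE
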