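import Pool.Agent.Q235.HE.Op

set_option autoImplicit false

/-!
# The infimum of `‖T x‖` over the unit sphere and its minimisers
-/

namespace Pool.Agent.Q235.HE

open scoped ENNReal InnerProductSpace Topology
open Filter

theorem inner_SS (x y : H) : ⟪S x, S y⟫_ℂ = ⟪x, y⟫_ℂ := shift.inner_map_map x y

theorem inner_self_re (x : H) : (⟪x, x⟫_ℂ).re = ‖x‖ ^ 2 := inner_self_eq_norm_sq (𝕜 := ℂ) x

/-- The norm of a real polynomial of degree four in the shift. -/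
theorem norm_comb (x : H) (g0 g1 g2 g3 g4 : ℝ) :
    ‖(g0 : ℂ) • x + (g1 : ℂ) • S x + (g2 : ℂ) • S (S x) + (g3 : ℂ) • S (S (S x))
      + (g4 : ℂ) • S (S (S (S x)))‖ ^ 2 =
    (g0 ^ 2 + g1 ^ 2 + g2 ^ 2 + g3 ^ 2 + g4 ^ 2) * ‖x‖ ^ 2
      + 2 * (g0 * g1 + g1 * g2 + g2 * g3 + g3 * g4) * (⟪x, S x⟫_ℂ).re
      + 2 * (g0 * g2 + g1 * g3 + g2 * g4) * (⟪x, S (S x)⟫_ℂ).re
      + 2 * (g0 * g3 + g1 * g4) * (⟪x, S (S (S x))⟫_ℂ).re
      + 2 * (g0 * g4) * (⟪x, S (S (S (S x)))⟫_ℂ).re := by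
  have hc : ∀ u v : H, (⟪u, v⟫_ℂ).re = (⟪v, u⟫_ℂ).re := fun u v => by
    rw [← inner_conj_symm, Complex.conj_re]
  have e1 := hc (S x) x
  have e2 := hc (S (S x)) x
  have e3 := hc (S (S (S x))) x
  have e4 := hc (S (S (S (S x)))) x
  rw [← inner_self_re x, ← inner_self_re]
  simp only [inner_add_left, inner_add_right, inner_smul_left, inner_smul_right, inner_SS,
    Complex.conj_ofReal, Complex.add_re, Complex.re_ofReal_mul]
  rw [e1, e2, e3, e4]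
  ring

theorem re_inner_le (x y : H) (h : ‖y‖ = ‖x‖) : |(⟪x, y⟫_ℂ).re| ≤ ‖x‖ ^ 2 := by
  refine (Complex.abs_re_le_norm _).trans ((norm_inner_le_norm x y).trans ?_)
  rw [h, sq]

theorem P_one_lower (x : H) : 0.2256 * ‖x‖ ^ 2 ≤ ‖P 1 x‖ ^ 2 := by
  have h1 := norm_comb x 1 0 0 1 1
  have h2 := norm_comb x (41 / 50) (18 / 50) (-6 / 50) (34 / 50) (61 / 50)
  have e : P 1 x = ((1 : ℝ) : ℂ) • x + ((0 : ℝ) : ℂ) • S x + ((0 : ℝ) : ℂ) • S (S x)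
      + ((1 : ℝ) : ℂ) • S (S (S x)) + ((1 : ℝ) : ℂ) • S (S (S (S x))) := by
    rw [P]
    push_cast
    simp only [one_smul, zero_smul, add_zero]
  rw [e, h1]
  have h3 := sq_nonneg ‖(((41 / 50 : ℝ)) : ℂ) • x + ((18 / 50 : ℝ) : ℂ) • S x
      + ((-6 / 50 : ℝ) : ℂ) • S (S x) + ((34 / 50 : ℝ) : ℂ) • S (S (S x))
      + ((61 / 50 : ℝ) : ℂ) • S (S (S (S x)))‖
  rw [h2] at h3
  have n1 : ‖S x‖ = ‖x‖ := norm_S x
  have n2 : ‖S (S x)‖ = ‖x‖ := (norm_S _).trans n1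
  have n3 : ‖S (S (S x))‖ = ‖x‖ := (norm_S _).trans n2
  have n4 : ‖S (S (S (S x)))‖ = ‖x‖ := (norm_S _).trans n3
  have b3 := abs_le.1 (re_inner_le x _ n3)
  have b4 := abs_le.1 (re_inner_le x _ n4)
  nlinarith [b3.1, b3.2, b4.1, b4.2]

/-- `‖(λ + S³ + S⁴) x‖ ≥ (0.47 - |λ - 1|) ‖x‖`. -/
theorem P_lower (lam : ℂ) (x : H) : (0.47 - ‖lam - 1‖) * ‖x‖ ≤ ‖P lam x‖ := by
  have h1 : 0.47 * ‖x‖ ≤ ‖P 1 x‖ := by
    have h := P_one_lower x
    have h0 := norm_nonneg x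
    have h2 := norm_nonneg (P 1 x)
    rw [← sq_le_sq₀ (by positivity) h2]
    nlinarith [sq_nonneg ‖x‖]
  have h2 := norm_P_sub 1 lam x
  rw [norm_sub_rev (1 : ℂ)] at h2
  have h3 := norm_sub_norm_le (P 1 x) (P lam x)
  linarith

/-- The infimum of `‖T x‖` over the unit sphere. -/
noncomputable def E0 (lam : ℂ) : ℝ := sInf ((fun x : H => ‖T lam x‖) '' {x | ‖x‖ = 1})

theorem bdd (lam : ℂ) : BddBelow ((fun x : H => ‖T lam x‖) '' {x | ‖x‖ = 1}) :=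
  ⟨0, by rintro _ ⟨x, -, rfl⟩; exact norm_nonneg _⟩

theorem exists_unit : ∃ x : H, ‖x‖ = 1 := ⟨lp.single 2 (0 : ℕ) (1 : ℂ), by
  rw [lp.norm_single (by norm_num)]; simp⟩

theorem nonemp (lam : ℂ) : ((fun x : H => ‖T lam x‖) '' {x | ‖x‖ = 1}).Nonempty := by
  obtain ⟨x, hx⟩ := exists_unit
  exact ⟨_, x, hx, rfl⟩

theorem E0_nonneg (lam : ℂ) : 0 ≤ E0 lam :=
  le_csInf (nonemp lam) (by rintro _ ⟨x, -, rfl⟩; exact norm_nonneg _)

theorem E0_le (lam : ℂ) (x : H) : E0 lam * ‖x‖ ≤ ‖T lam x‖ := by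
  rcases eq_or_ne x 0 with rfl | hx
  · simp
  have hn : 0 < ‖x‖ := norm_pos_iff.2 hx
  set y : H := ((‖x‖⁻¹ : ℝ) : ℂ) • x with hy
  have hy1 : ‖y‖ = 1 := by
    rw [hy, norm_smul, Complex.norm_real, norm_inv, norm_norm, inv_mul_cancel₀ hn.ne']
  have h : E0 lam ≤ ‖T lam y‖ := csInf_le (bdd lam) ⟨y, hy1, rfl⟩
  have h2 : ‖T lam y‖ = ‖x‖⁻¹ * ‖T lam x‖ := by
    rw [hy, map_smul, norm_smul, Complex.norm_real, norm_inv, norm_norm]
  rw [h2] at h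
  calc E0 lam * ‖x‖ ≤ (‖x‖⁻¹ * ‖T lam x‖) * ‖x‖ := by gcongr
    _ = ‖T lam x‖ := by field_simp

theorem E0_le_of_unit (lam : ℂ) {x : H} (hx : ‖x‖ = 1) : E0 lam ≤ ‖T lam x‖ :=
  csInf_le (bdd lam) ⟨x, hx, rfl⟩

theorem exists_lt (lam : ℂ) {e : ℝ} (he : 0 < e) : ∃ x : H, ‖x‖ = 1 ∧ ‖T lam x‖ < E0 lam + e := by
  obtain ⟨_, ⟨x, hx, rfl⟩, h⟩ := exists_lt_of_csInf_lt (nonemp lam)
    (show sInf ((fun x : H => ‖T lam x‖) '' {x | ‖x‖ = 1}) < E0 lam + e from lt_add_of_pos_right _ he)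
  exact ⟨x, hx, h⟩

theorem E0_sub_le (lam mu : ℂ) : E0 lam - ‖lam - mu‖ ≤ E0 mu := by
  refine le_csInf (nonemp mu) ?_
  rintro _ ⟨x, hx, rfl⟩
  have h1 := E0_le_of_unit lam (x := x) hx
  have h2 := norm_T_sub lam mu x
  have hx' : ‖x‖ = 1 := hx
  rw [hx', mul_one] at h2
  have h3 := norm_sub_norm_le (T lam x) (T mu x)
  change E0 lam - ‖lam - mu‖ ≤ ‖T mu x‖
  linarith

theorem E0_lipschitz (lam mu : ℂ) : |E0 lam - E0 mu| ≤ ‖lam - mu‖ := by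
  rw [abs_le]
  constructor
  · have := E0_sub_le mu lam
    rw [norm_sub_rev mu] at this
    linarith
  · have := E0_sub_le lam mu
    linarith

theorem continuous_E0 : Continuous E0 := by
  refine LipschitzWith.continuous (K := 1) (LipschitzWith.of_dist_le_mul fun x y => ?_)
  rw [Real.dist_eq, dist_eq_norm, NNReal.coe_one, one_mul]
  exact E0_lipschitz x y

/-- The minimum is attained if it is below `m`, where `m ‖x‖² ≤ ‖P x‖²`. -/
theorem exists_min (lam : ℂ) (hl : ‖lam‖ = 1) (m : ℝ) (hm : ∀ x : H, m * ‖x‖ ^ 2 ≤ ‖P lam x‖ ^ 2)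
    (hlt : E0 lam ^ 2 < m) : ∃ f : H, ‖f‖ = 1 ∧ ‖T lam f‖ = E0 lam := by
  have hex : ∀ n : ℕ, ∃ x : H, ‖x‖ = 1 ∧ ‖T lam x‖ < E0 lam + 1 / ((n : ℝ) + 1) := fun n =>
    exists_lt lam (by positivity)
  choose f hf1 hf2 using hex
  have hT : Tendsto (fun n => ‖T lam (f n)‖) atTop (𝓝 (E0 lam)) := by
    refine tendsto_of_tendsto_of_tendsto_of_le_of_le (g := fun _ => E0 lam)
      (h := fun n : ℕ => E0 lam + 1 / ((n : ℝ) + 1)) tendsto_const_nhds ?_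
      (fun n => E0_le_of_unit lam (hf1 n)) (fun n => (hf2 n).le)
    have := (tendsto_one_div_add_atTop_nhds_zero_nat (𝕜 := ℝ)).const_add (E0 lam)
    rwa [add_zero] at this
  -- the first two coordinates
  set u : ℕ → ℂ × ℂ := fun n => (f n 0, f n 1) with hu
  have hub : Bornology.IsBounded (Set.range u) := by
    rw [isBounded_iff_forall_norm_le]
    refine ⟨1, ?_⟩
    rintro _ ⟨n, rfl⟩
    have h0 : ‖f n 0‖ ≤ 1 := (lp.norm_apply_le_norm (by norm_num) (f n) 0).trans (hf1 n).le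
    have h1 : ‖f n 1‖ ≤ 1 := (lp.norm_apply_le_norm (by norm_num) (f n) 1).trans (hf1 n).le
    exact max_le h0 h1
  obtain ⟨c, -, φ, hφ, hc⟩ := tendsto_subseq_of_bounded hub (fun n => Set.mem_range_self n)
  have hkey : ∀ n k : ℕ, (m - E0 lam ^ 2) * ‖f n - f k‖ ^ 2 ≤
      2 * ‖T lam (f n)‖ ^ 2 + 2 * ‖T lam (f k)‖ ^ 2 - 4 * E0 lam ^ 2
        + 2 * dist (u n) (u k) ^ 2 := by
    intro n k
    have p1 := parallelogram_law_with_norm ℂ (T lam (f n)) (T lam (f k))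
    have p2 := parallelogram_law_with_norm ℂ (f n) (f k)
    rw [hf1, hf1] at p2
    rw [← map_add, ← map_sub] at p1
    have h1 := E0_le lam (f n + f k)
    have h2 : E0 lam ^ 2 * ‖f n + f k‖ ^ 2 ≤ ‖T lam (f n + f k)‖ ^ 2 := by
      rw [← mul_pow]
      exact pow_le_pow_left₀ (mul_nonneg (E0_nonneg _) (norm_nonneg _)) h1 2
    have h3 := norm_sq_P lam hl (f n - f k)
    have h4 := hm (f n - f k)
    have h5 : ‖(f n - f k) 0‖ ≤ dist (u n) (u k) := by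
      rw [Prod.dist_eq, coe_sub, ← dist_eq_norm]
      exact le_max_left _ _
    have h6 : ‖(f n - f k) 1‖ ≤ dist (u n) (u k) := by
      rw [Prod.dist_eq, coe_sub, ← dist_eq_norm]
      exact le_max_right _ _
    have h7 := pow_le_pow_left₀ (norm_nonneg _) h5 2
    have h8 := pow_le_pow_left₀ (norm_nonneg _) h6 2
    nlinarith
  have hpos : 0 < m - E0 lam ^ 2 := by linarith
  have hcau : CauchySeq (f ∘ φ) := by
    have hcu : CauchySeq (u ∘ φ) := hc.cauchySeq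
    rw [Metric.cauchySeq_iff] at hcu ⊢
    intro e he
    have hT2 : Tendsto (fun n => ‖T lam (f (φ n))‖ ^ 2) atTop (𝓝 (E0 lam ^ 2)) :=
      (hT.comp hφ.tendsto_atTop).pow 2
    have hd : 0 < (m - E0 lam ^ 2) * e ^ 2 / 8 := by positivity
    obtain ⟨N1, hN1⟩ := (Metric.tendsto_atTop.1 hT2) _ hd
    obtain ⟨N2, hN2⟩ := hcu (Real.sqrt ((m - E0 lam ^ 2) * e ^ 2 / 8)) (Real.sqrt_pos.2 hd)
    refine ⟨max N1 N2, fun n hn k hk => ?_⟩
    have a1 := hN1 n (le_trans (le_max_left _ _) hn)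
    have a2 := hN1 k (le_trans (le_max_left _ _) hk)
    have a3 := hN2 n (le_trans (le_max_right _ _) hn) k (le_trans (le_max_right _ _) hk)
    rw [Real.dist_eq] at a1 a2
    have a4 := abs_lt.1 a1
    have a5 := abs_lt.1 a2
    have a6 : dist (u (φ n)) (u (φ k)) ^ 2 ≤ (m - E0 lam ^ 2) * e ^ 2 / 8 := by
      have := pow_le_pow_left₀ dist_nonneg a3.le 2
      rwa [Real.sq_sqrt hd.le] at this
    have a7 := hkey (φ n) (φ k)
    rw [dist_eq_norm]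
    have a8 : (m - E0 lam ^ 2) * ‖f (φ n) - f (φ k)‖ ^ 2 < (m - E0 lam ^ 2) * e ^ 2 := by
      have : 2 * dist (u (φ n)) (u (φ k)) ^ 2 ≤ 2 * ((m - E0 lam ^ 2) * e ^ 2 / 8) := by linarith
      nlinarith [a4.2, a5.2]
    have a9 := lt_of_mul_lt_mul_left a8 hpos.le
    exact lt_of_pow_lt_pow_left₀ 2 he.le a9
  obtain ⟨g, hg⟩ := cauchySeq_tendsto_of_complete hcau
  refine ⟨g, ?_, ?_⟩
  · have h1 : Tendsto (fun n => ‖(f ∘ φ) n‖) atTop (𝓝 ‖g‖) := hg.norm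
    have h2 : (fun n => ‖(f ∘ φ) n‖) = fun _ => (1 : ℝ) := by
      funext n
      exact hf1 _
    rw [h2] at h1
    exact (tendsto_nhds_unique h1 tendsto_const_nhds)
  · have h1 : Tendsto (fun n => ‖T lam ((f ∘ φ) n)‖) atTop (𝓝 ‖T lam g‖) :=
      (((T lam).continuous.tendsto g).comp hg).norm
    exact tendsto_nhds_unique h1 (hT.comp hφ.tendsto_atTop)

/-- A minimiser is an eigenvector of `T' T`. -/
theorem min_eigen (lam : ℂ) (f : H) (hf1 : ‖f‖ = 1) (hf : ‖T lam f‖ = E0 lam) :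
    T' lam (T lam f) = ((E0 lam ^ 2 : ℝ) : ℂ) • f := by
  set D : H := T' lam (T lam f) - ((E0 lam ^ 2 : ℝ) : ℂ) • f with hD
  have key : ∀ h : H, 0 ≤ 2 * (⟪D, h⟫_ℂ).re + (‖T lam h‖ ^ 2 - E0 lam ^ 2 * ‖h‖ ^ 2) := by
    intro h
    have h1 := E0_le lam (f + h)
    have h2 : E0 lam ^ 2 * ‖f + h‖ ^ 2 ≤ ‖T lam (f + h)‖ ^ 2 := by
      rw [← mul_pow]
      exact pow_le_pow_left₀ (mul_nonneg (E0_nonneg _) (norm_nonneg _)) h1 2
    rw [map_add, norm_add_sq (𝕜 := ℂ), norm_add_sq (𝕜 := ℂ), hf1, hf] at h2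
    have h3 : (⟪D, h⟫_ℂ).re = (⟪T lam f, T lam h⟫_ℂ).re - E0 lam ^ 2 * (⟪f, h⟫_ℂ).re := by
      rw [hD, inner_sub_left, inner_smul_left, Complex.sub_re, Complex.conj_ofReal,
        Complex.re_ofReal_mul]
      congr 1
      rw [← inner_conj_symm, ← inner_T, inner_conj_symm]
    rw [h3]
    have e1 : RCLike.re ⟪f, h⟫_ℂ = (⟪f, h⟫_ℂ).re := rfl
    have e2 : RCLike.re ⟪T lam f, T lam h⟫_ℂ = (⟪T lam f, T lam h⟫_ℂ).re := rfl
    rw [e1, e2] at h2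
    nlinarith
  have hD0 : ‖D‖ ^ 2 = 0 := by
    by_contra hne
    have hpos : 0 < ‖D‖ ^ 2 := lt_of_le_of_ne (sq_nonneg _) (Ne.symm hne)
    set K : ℝ := |‖T lam D‖ ^ 2 - E0 lam ^ 2 * ‖D‖ ^ 2| with hK
    set t : ℝ := ‖D‖ ^ 2 / (K + 1) with ht
    have hK0 : 0 ≤ K := abs_nonneg _
    have ht0 : 0 < t := by positivity
    have h1 := key (((-t : ℝ) : ℂ) • D)
    rw [inner_smul_right, Complex.re_ofReal_mul, inner_self_re, map_smul, norm_smul, norm_smul,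
      Complex.norm_real, mul_pow, mul_pow, Real.norm_eq_abs, sq_abs] at h1
    have h2 : ‖T lam D‖ ^ 2 - E0 lam ^ 2 * ‖D‖ ^ 2 ≤ K := le_abs_self _
    have h3 : t * K ≤ ‖D‖ ^ 2 := by
      rw [ht, div_mul_eq_mul_div, div_le_iff₀ (by positivity)]
      nlinarith
    have h4 : 0 ≤ t * (-2 * ‖D‖ ^ 2 + t * K) := by nlinarith [sq_nonneg t]
    have h5 : t * (-2 * ‖D‖ ^ 2 + t * K) < 0 := by
      apply mul_neg_of_pos_of_neg ht0
      nlinarith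
    linarith
  have : D = 0 := by
    rw [← norm_eq_zero]
    exact pow_eq_zero_iff (by norm_num) |>.1 hD0
  rw [hD, sub_eq_zero] at this
  exact this

/-- The trial vector. -/
def tv : ℕ → ℤ
  | 0 => 8 | 1 => -10 | 2 => 6 | 3 => -6 | 4 => 2 | 5 => 3 | 6 => -3 | 7 => 5 | 8 => -5
  | 9 => 2 | 10 => -1 | 11 => -1 | 12 => 2 | 13 => -2 | 14 => 2 | 15 => -1
  | _ + 16 => 0

theorem tv_zero (n : ℕ) (h : 16 ≤ n) : tv n = 0 := by
  obtain ⟨k, rfl⟩ := Nat.exists_eq_add_of_le h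
  rw [add_comm]
  rfl

/-- The trial vector in the Hilbert space. -/
noncomputable def tvec : H := ⟨fun n => ((tv n : ℤ) : ℂ), (memlp_iff _).2 (by
  refine summable_of_hasFiniteSupport (Set.Finite.subset (Set.finite_lt_nat 16) fun n hn => ?_)
  change n < 16
  by_contra h
  apply hn
  simp [tv_zero n (not_lt.1 h)])⟩

theorem tvec_apply (n : ℕ) : tvec n = ((tv n : ℤ) : ℂ) := rfl

/-- The image of the trial vector at `λ = 1`. -/
def tw (n : ℕ) : ℤ := match n with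
  | 0 => tv 2
  | 1 => tv 0 + tv 3
  | n + 2 => tv (n + 1) + tv n + tv (n + 4)

theorem T_tvec (n : ℕ) : T 1 tvec n = ((tw n : ℤ) : ℂ) := by
  rcases n with _ | _ | n
  · rw [T_coe_zero, tvec_apply]; simp [tw]
  · rw [T_coe_one, tvec_apply, tvec_apply]; simp [tw]
  · rw [T_coe, tvec_apply, tvec_apply, tvec_apply]; simp [tw]

theorem norm_tvec : ‖tvec‖ ^ 2 = ((∑ n ∈ Finset.range 16, tv n ^ 2 : ℤ) : ℝ) := by
  rw [norm_sq, tsum_eq_sum (s := Finset.range 16)]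
  · push_cast
    refine Finset.sum_congr rfl fun n _ => ?_
    rw [tvec_apply, Complex.norm_intCast, sq_abs]
  · intro n hn
    rw [tvec_apply, tv_zero n (by simpa using hn)]
    simp

theorem norm_Ttvec : ‖T 1 tvec‖ ^ 2 = ((∑ n ∈ Finset.range 18, tw n ^ 2 : ℤ) : ℝ) := by
  rw [norm_sq, tsum_eq_sum (s := Finset.range 18)]
  · push_cast
    refine Finset.sum_congr rfl fun n _ => ?_
    rw [T_tvec, Complex.norm_intCast, sq_abs]
  · intro n hn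
    rw [T_tvec]
    obtain ⟨k, rfl⟩ := Nat.exists_eq_add_of_le (show 18 ≤ n by simpa using hn)
    have : tw (18 + k) = 0 := by
      rw [show 18 + k = (16 + k) + 2 by ring]
      simp only [tw]
      rw [tv_zero _ (by omega), tv_zero _ (by omega), tv_zero _ (by omega)]
      rfl
    rw [this]
    simp

theorem E0_one_le : E0 1 ≤ 0.436 := by
  have h := E0_le 1 tvec
  have h1 : ‖tvec‖ ^ 2 = 327 := by
    rw [norm_tvec]
    norm_num [Finset.sum_range_succ, tv]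
  have h2 : ‖T 1 tvec‖ ^ 2 = 61 := by
    rw [norm_Ttvec]
    norm_num [Finset.sum_range_succ, tv, tw]
  have h3 : (E0 1 * ‖tvec‖) ^ 2 ≤ 61 := by
    rw [← h2]
    exact pow_le_pow_left₀ (mul_nonneg (E0_nonneg _) (norm_nonneg _)) h 2
  rw [mul_pow, h1] at h3
  by_contra hcon
  push Not at hcon
  nlinarith

end Pool.Agent.Q235.HE
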