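import Pool.Agent.Q235.HE.Red
import Pool.Agent.Q235.HE.Gap
import Pool.Agent.Q235.HE.Low

set_option autoImplicit false

/-!
# The edge state curve through `k = 0`
-/

namespace Pool.Agent.Q235.HE

open scoped Topology
open Filter

/-- The graph of a family. -/
def graph (I : Set Real.Angle) (E : Real.Angle → ℝ) : Set (Real.Angle × ℝ) :=
  {x | x.1 ∈ I ∧ x.2 = E x.1}

/-- Every family extends to an edge state curve. -/
theorem exists_curve (e : Edge) (I : Set Real.Angle) (E : Real.Angle → ℝ) (h : e.IsFamily I E) :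
    ∃ (I' : Set Real.Angle) (E' : Real.Angle → ℝ), e.IsCurve I' E' ∧ I ⊆ I' ∧ Set.EqOn E' E I := by
  classical
  let 𝒮 : Set (Set (Real.Angle × ℝ)) := {G | ∃ I E, e.IsFamily I E ∧ G = graph I E}
  obtain ⟨M, hM, hmax⟩ := zorn_subset_nonempty 𝒮 (by
    intro c hc hchain hne
    -- the union of the chain
    set U : Set (Real.Angle × ℝ) := ⋃₀ c with hU
    have huniq : ∀ x y : Real.Angle × ℝ, x ∈ U → y ∈ U → x.1 = y.1 → x.2 = y.2 := by
      rintro x y ⟨G, hG, hx⟩ ⟨G', hG', hy⟩ hxy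
      have key : ∀ F ∈ c, x ∈ F → y ∈ F → x.2 = y.2 := by
        intro F hF hx hy
        obtain ⟨I, E, -, rfl⟩ := hc hF
        rw [hx.2, hy.2, hxy]
      rcases hchain.total hG hG' with h1 | h1
      · exact key G' hG' (h1 hx) hy
      · exact key G hG hx (h1 hy)
    let J : Set Real.Angle := Prod.fst '' U
    let F : Real.Angle → ℝ := fun k => if hk : k ∈ J then hk.choose.2 else 0
    have hF : ∀ x ∈ U, F x.1 = x.2 := by
      intro x hx
      have hk : x.1 ∈ J := ⟨x, hx, rfl⟩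
      have h1 : F x.1 = hk.choose.2 := dif_pos hk
      rw [h1]
      exact huniq _ _ hk.choose_spec.1 hx hk.choose_spec.2
    have hUg : U = graph J F := by
      ext x
      constructor
      · intro hx
        exact ⟨⟨x, hx, rfl⟩, (hF x hx).symm⟩
      · rintro ⟨⟨y, hy, hxy⟩, hx2⟩
        have : x = y := Prod.ext hxy.symm (by rw [hx2, ← hxy, hF y hy])
        rw [this]
        exact hy
    have hsub : ∀ I E, graph I E ∈ c → e.IsFamily I E → I ⊆ J ∧ Set.EqOn F E I := by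
      intro I E hG hfam
      have h1 : ∀ k ∈ I, (k, E k) ∈ U := fun k hk => ⟨_, hG, hk, rfl⟩
      exact ⟨fun k hk => ⟨_, h1 k hk, rfl⟩, fun k hk => hF _ (h1 k hk)⟩
    have hcover : ∀ k ∈ J, ∃ I E, graph I E ∈ c ∧ e.IsFamily I E ∧ k ∈ I := by
      rintro _ ⟨x, ⟨G, hG, hx⟩, rfl⟩
      obtain ⟨I, E, hfam, rfl⟩ := hc hG
      exact ⟨I, E, hG, hfam, hx.1⟩
    refine ⟨U, ⟨J, F, ⟨?_, ?_, ?_, ?_⟩, hUg⟩, fun G hG => Set.subset_sUnion_of_mem hG⟩
    · rw [isOpen_iff_mem_nhds]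
      intro k hk
      obtain ⟨I, E, hG, hfam, hkI⟩ := hcover k hk
      exact mem_of_superset (hfam.isOpen.mem_nhds hkI) (hsub I E hG hfam).1
    · obtain ⟨G0, hG0⟩ := hne
      obtain ⟨I0, E0, hfam0, hG0'⟩ := hc hG0
      obtain ⟨k0, hk0⟩ := hfam0.conn.nonempty
      rw [hG0'] at hG0
      refine ⟨⟨k0, (hsub I0 E0 hG0 hfam0).1 hk0⟩, ?_⟩
      apply isPreconnected_of_forall k0
      intro k hk
      obtain ⟨I, E, hG, hfam, hkI⟩ := hcover k hk
      rcases hchain.total hG0 hG with h1 | h1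
      · refine ⟨I, (hsub I E hG hfam).1, ?_, hkI, hfam.conn.isPreconnected⟩
        exact (h1 (⟨hk0, rfl⟩ : (k0, E0 k0) ∈ graph I0 E0)).1
      · refine ⟨I0, (hsub I0 E0 hG0 hfam0).1, hk0, ?_, hfam0.conn.isPreconnected⟩
        exact (h1 (⟨hkI, rfl⟩ : (k, E k) ∈ graph I E)).1
    · intro k hk
      obtain ⟨I, E, hG, hfam, hkI⟩ := hcover k hk
      have h1 := (hsub I E hG hfam)
      have h2 : ContinuousAt E k := hfam.cont.continuousAt (hfam.isOpen.mem_nhds hkI)
      have h3 : F =ᶠ[𝓝 k] E := by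
        filter_upwards [hfam.isOpen.mem_nhds hkI] with x hx
        exact h1.2 hx
      exact (h2.congr h3.symm).continuousWithinAt
    · intro k hk
      obtain ⟨I, E, hG, hfam, hkI⟩ := hcover k hk
      rw [(hsub I E hG hfam).2 hkI]
      exact hfam.energy k hkI) (graph I E) ⟨I, E, h, rfl⟩
  obtain ⟨⟨I', E', hfam, rfl⟩, hmax'⟩ := hmax
  have hI : ∀ k ∈ I, k ∈ I' ∧ E k = E' k := fun k hk =>
    hM (⟨hk, rfl⟩ : (k, E k) ∈ graph I E)
  refine ⟨I', E', ⟨hfam, ?_⟩, fun k hk => (hI k hk).1, fun k hk => (hI k hk).2.symm⟩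
  intro I'' E'' hfam'' hsub heq
  have h1 : graph I' E' ⊆ graph I'' E'' := by
    rintro ⟨k, x⟩ ⟨hk, hx⟩
    exact ⟨hsub hk, by rw [hx]; exact (heq hk).symm⟩
  have h2 := hmax' (⟨I'', E'', hfam'', rfl⟩ : graph I'' E'' ∈ 𝒮) h1
  apply Set.Subset.antisymm _ hsub
  intro k hk
  exact (h2 (⟨hk, rfl⟩ : (k, E'' k) ∈ graph I'' E'')).1

/-- All non-zero edge energies of the edge `(3, 1)` are at least `ε` in absolute value. -/
theorem energy_gap : ∃ ε : ℝ, 0 < ε ∧ ∀ (k : Real.Angle) (E : ℝ), e31.IsEnergy k E →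
    E = 0 ∨ ε ≤ |E| := by
  obtain ⟨ε, hε, h⟩ := gap
  refine ⟨ε, hε, fun k E hE => ?_⟩
  obtain ⟨a, b, hab, h1, h2⟩ := to_pair k E hE
  exact h _ (Circle.norm_coe _) E a b hab h1 h2

/-- The lowest singular value is an edge energy if it is below the bulk. -/
theorem energy_of_low (k : Real.Angle) (h0 : 0 < E0 (k.toCircle : ℂ))
    (h1 : E0 (k.toCircle : ℂ) + ‖(k.toCircle : ℂ) - 1‖ < 0.47) :
    e31.IsEnergy k (E0 (k.toCircle : ℂ)) := by
  set z : ℂ := (k.toCircle : ℂ) with hz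
  have zn : ‖z‖ = 1 := Circle.norm_coe _
  have hd : 0 < 0.47 - ‖z - 1‖ := by linarith
  have hm : ∀ x : H, (0.47 - ‖z - 1‖) ^ 2 * ‖x‖ ^ 2 ≤ ‖P z x‖ ^ 2 := by
    intro x
    rw [← mul_pow]
    exact pow_le_pow_left₀ (mul_nonneg hd.le (norm_nonneg _)) (P_lower z x) 2
  have hlt : E0 z ^ 2 < (0.47 - ‖z - 1‖) ^ 2 :=
    pow_lt_pow_left₀ (by linarith) (E0_nonneg z) two_ne_zero
  obtain ⟨f, hf1, hf⟩ := exists_min z zn _ hm hlt
  have he := min_eigen z f hf1 hf
  have hne : ((E0 z : ℝ) : ℂ) ≠ 0 := Complex.ofReal_ne_zero.2 h0.ne'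
  refine of_pair k (E0 z) f (((E0 z : ℝ) : ℂ)⁻¹ • T z f) (Or.inl ?_) ?_ ?_
  · intro h
    rw [h, norm_zero] at hf1
    exact zero_ne_one hf1
  · rw [smul_smul, mul_inv_cancel₀ hne, one_smul]
  · rw [map_smul, he, smul_smul]
    congr 1
    push_cast
    field_simp

theorem E0_one_pos : 0 < E0 1 := by
  obtain ⟨δ, hδ, h⟩ := T_lower 1 (by simp) (by norm_num)
  refine lt_of_lt_of_le hδ (le_csInf (nonemp 1) ?_)
  rintro _ ⟨x, hx, rfl⟩
  have h1 := h x
  have hx' : ‖x‖ = 1 := hx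
  rw [hx', mul_one] at h1
  exact h1

/-- There is a family of positive edge energies around `k = 0`. -/
theorem exists_family : ∃ (I : Set Real.Angle) (E : Real.Angle → ℝ), e31.IsFamily I E ∧
    (0 : Real.Angle) ∈ I ∧ 0 < E 0 := by
  have hc : Continuous fun x : ℝ => ((Circle.exp x : Circle) : ℂ) :=
    continuous_subtype_val.comp Circle.exp.continuous
  have hc2 : Continuous fun x : ℝ => E0 ((Circle.exp x : Circle) : ℂ) := continuous_E0.comp hc
  have hc3 : Continuous fun x : ℝ => E0 ((Circle.exp x : Circle) : ℂ)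
      + ‖((Circle.exp x : Circle) : ℂ) - 1‖ := hc2.add (hc.sub continuous_const).norm
  have z0 : ((Circle.exp 0 : Circle) : ℂ) = 1 := by simp
  have o1 : IsOpen {x : ℝ | 0 < E0 ((Circle.exp x : Circle) : ℂ)} := isOpen_lt continuous_const hc2
  have o2 : IsOpen {x : ℝ | E0 ((Circle.exp x : Circle) : ℂ)
      + ‖((Circle.exp x : Circle) : ℂ) - 1‖ < 0.47} := isOpen_lt hc3 continuous_const
  have m0 : (0 : ℝ) ∈ {x : ℝ | 0 < E0 ((Circle.exp x : Circle) : ℂ)} ∩
      {x : ℝ | E0 ((Circle.exp x : Circle) : ℂ) + ‖((Circle.exp x : Circle) : ℂ) - 1‖ < 0.47} := by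
    constructor
    · change 0 < E0 ((Circle.exp 0 : Circle) : ℂ)
      rw [z0]
      exact E0_one_pos
    · change E0 ((Circle.exp 0 : Circle) : ℂ) + ‖((Circle.exp 0 : Circle) : ℂ) - 1‖ < 0.47
      rw [z0, sub_self, norm_zero, add_zero]
      exact lt_of_le_of_lt E0_one_le (by norm_num)
  obtain ⟨δ, hδ, hball⟩ := Metric.isOpen_iff.1 (o1.inter o2) 0 m0
  let J : Set ℝ := Metric.ball (0 : ℝ) δ
  have hJ : IsConnected J := by
    refine ⟨⟨0, Metric.mem_ball_self hδ⟩, ?_⟩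
    exact (convex_ball (0 : ℝ) δ).isPreconnected
  let I : Set Real.Angle := (fun x : ℝ => (x : Real.Angle)) '' J
  have hE : Continuous fun k : Real.Angle => E0 (k.toCircle : ℂ) :=
    continuous_coinduced_dom.2 hc2
  refine ⟨I, fun k => E0 (k.toCircle : ℂ), ⟨?_, ?_, hE.continuousOn, ?_⟩,
    ⟨0, Metric.mem_ball_self hδ, rfl⟩, ?_⟩
  · exact QuotientAddGroup.isOpenMap_coe _ Metric.isOpen_ball
  · exact hJ.image _ (Real.Angle.continuous_coe.continuousOn)
  · rintro _ ⟨x, hx, rfl⟩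
    have h := hball hx
    exact energy_of_low _ h.1 h.2
  · change 0 < E0 (((0 : Real.Angle).toCircle : Circle) : ℂ)
    rw [Real.Angle.toCircle_zero, Circle.coe_one]
    exact E0_one_pos

/-- A family with a positive energy stays above the gap. -/
theorem family_pos {ε : ℝ} (hε : 0 < ε) (hgap : ∀ (k : Real.Angle) (E : ℝ), e31.IsEnergy k E →
    E = 0 ∨ ε ≤ |E|) {I : Set Real.Angle} {E : Real.Angle → ℝ} (h : e31.IsFamily I E)
    {k0 : Real.Angle} (h0 : k0 ∈ I) (hE : 0 < E k0) : ∀ k ∈ I, ε ≤ E k := by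
  intro k hk
  have g0 : ε ≤ E k0 := by
    rcases hgap k0 _ (h.energy k0 h0) with h1 | h1
    · exact absurd h1 hE.ne'
    · rwa [abs_of_pos hE] at h1
  by_contra hcon
  push Not at hcon
  have g1 : E k ≤ 0 := by
    rcases hgap k _ (h.energy k hk) with h1 | h1
    · exact h1.le
    · by_contra h2
      push Not at h2
      rw [abs_of_pos h2] at h1
      linarith
  obtain ⟨k', hk', hk'2⟩ := h.conn.isPreconnected.intermediate_value hk h0 h.cont
    (show ε / 2 ∈ Set.Icc (E k) (E k0) from ⟨by linarith, by linarith⟩)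
  rcases hgap k' _ (h.energy k' hk') with h1 | h1
  · rw [h1] at hk'2
    linarith
  · rw [hk'2, abs_of_pos (by linarith)] at h1
    linarith

/-- A family with a non-zero energy stays above the gap in absolute value. -/
theorem family_abs {ε : ℝ} (hε : 0 < ε) (hgap : ∀ (k : Real.Angle) (E : ℝ), e31.IsEnergy k E →
    E = 0 ∨ ε ≤ |E|) {I : Set Real.Angle} {E : Real.Angle → ℝ} (h : e31.IsFamily I E)
    {k0 : Real.Angle} (h0 : k0 ∈ I) (hE : E k0 ≠ 0) : ∀ k ∈ I, ε ≤ |E k| := by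
  intro k hk
  have g0 : ε ≤ |E k0| := by
    rcases hgap k0 _ (h.energy k0 h0) with h1 | h1
    · exact absurd h1 hE
    · exact h1
  rcases hgap k _ (h.energy k hk) with h1 | h1
  · obtain ⟨k', hk', hk'2⟩ := h.conn.isPreconnected.intermediate_value hk h0 h.cont.abs
      (show ε / 2 ∈ Set.Icc (|E k|) (|E k0|) from ⟨by rw [h1, abs_zero]; linarith, by linarith⟩)
    have hk'3 : |E k'| = ε / 2 := hk'2
    rcases hgap k' _ (h.energy k' hk') with h2 | h2
    · rw [h2, abs_zero] at hk'3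
      linarith
    · rw [hk'3] at h2
      linarith
  · exact h1

/-- Such a family does not end in a band crossing, at any end. -/
theorem not_tendsto {ε : ℝ} (hε : 0 < ε) {I : Set Real.Angle} {E : Real.Angle → ℝ}
    (h : ∀ k ∈ I, ε ≤ |E k|) (l : Filter ℝ) [l.NeBot]
    (hl : ∀ᶠ x : ℝ in l, (x : Real.Angle) ∈ I) :
    ¬ Tendsto (fun x : ℝ => E (x : Real.Angle)) l (𝓝 0) := by
  intro ht
  have h1 := ht.abs
  rw [abs_zero] at h1
  have h2 := ge_of_tendsto h1 (hl.mono fun x hx => h _ hx)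
  linarith

end Pool.Agent.Q235.HE
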