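import Mathlib

set_option autoImplicit false

/-!
# Edge states of rationally terminated honeycombs: definitions

The plane `ℝ²` is `ℂ`; the momentum circle `ℝ / 2πℤ` is `Real.Angle`.
-/

namespace Pool.Agent.Q235.HE

open scoped Topology
open Filter

/-- The Euclidean inner product of the plane `ℝ² = ℂ`. -/
def dot (x y : ℂ) : ℝ := x.re * y.re + x.im * y.im

/-- The lattice vector `v̊₁ = (√3/2, 1/2)`. -/
noncomputable def v1 : ℂ := ⟨Real.sqrt 3 / 2, 1 / 2⟩

/-- The lattice vector `v̊₂ = (√3/2, -1/2)`. -/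
noncomputable def v2 : ℂ := ⟨Real.sqrt 3 / 2, -(1 / 2)⟩

/-- The sites of the honeycomb: `(false, m, n)` is the A-site `m v̊₁ + n v̊₂` and `(true, m, n)`
is the B-site `(1/√3, 0) + m v̊₁ + n v̊₂`. -/
abbrev Site : Type := Bool × ℤ × ℤ

/-- The position of a site. -/
noncomputable def pos (s : Site) : ℂ :=
  (if s.1 then (⟨1 / Real.sqrt 3, 0⟩ : ℂ) else 0) + (s.2.1 : ℂ) * v1 + (s.2.2 : ℂ) * v2

/-- A rational edge with its half-plane: coprime integers `(a, b)`, a normal vector `ν ≠ 0` of the
edge direction `a v̊₁ + b v̊₂`, and the level `c` of the boundary line; the closed half-plane is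
`{x | c ≤ x · ν}`. -/
structure Edge where
  /-- the first coefficient of the edge direction -/
  a : ℤ
  /-- the second coefficient of the edge direction -/
  b : ℤ
  coprime : IsCoprime a b
  /-- the normal vector -/
  ν : ℂ
  ν_ne : ν ≠ 0
  perp : dot ((a : ℂ) * v1 + (b : ℂ) * v2) ν = 0
  /-- the level of the boundary line -/
  c : ℝ

/-- The edge direction `a v̊₁ + b v̊₂`. -/
noncomputable def Edge.dir (e : Edge) : ℂ := (e.a : ℂ) * v1 + (e.b : ℂ) * v2

/-- The sites in the closed half-plane. -/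
def Edge.sites (e : Edge) : Set Site := {s | e.c ≤ dot (pos s) e.ν}

/-- The edge Hamiltonian: the sum over the sites of the half-plane at distance `1/√3`. -/
noncomputable def Edge.ham (e : Edge) (ψ : Site → ℂ) (s : Site) : ℂ :=
  ∑ᶠ (t : Site) (_ : t ∈ {t | t ∈ e.sites ∧ ‖pos t - pos s‖ = 1 / Real.sqrt 3}), ψ t

/-- One period of the half-plane: the sites whose component along the edge direction `v` is in
`[0, |v|)`, that is `0 ≤ x · v < v · v`. -/
def Edge.period (e : Edge) : Set Site :=
  {s | s ∈ e.sites ∧ 0 ≤ dot (pos s) e.dir ∧ dot (pos s) e.dir < dot e.dir e.dir}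

/-- `ψ` is a `k`-edge state of energy `E`; functions on the half-plane are extended by zero. -/
structure Edge.IsEdgeState (e : Edge) (k : Real.Angle) (E : ℝ) (ψ : Site → ℂ) : Prop where
  off : ∀ s, s ∉ e.sites → ψ s = 0
  ne : ψ ≠ 0
  quasi : ∀ i m n, ψ (i, m + e.a, n + e.b) = (k.toCircle : ℂ) * ψ (i, m, n)
  summable : Summable fun s : e.period => ‖ψ s‖ ^ 2
  eig : ∀ s ∈ e.sites, e.ham ψ s = (E : ℂ) * ψ s

/-- `E` is the energy of a `k`-edge state. -/
def Edge.IsEnergy (e : Edge) (k : Real.Angle) (E : ℝ) : Prop := ∃ ψ, e.IsEdgeState k E ψ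

/-- A continuous family of edge state energies on a non-empty open connected set `I` of momenta,
not necessarily maximal. -/
structure Edge.IsFamily (e : Edge) (I : Set Real.Angle) (E : Real.Angle → ℝ) : Prop where
  isOpen : IsOpen I
  conn : IsConnected I
  cont : ContinuousOn E I
  energy : ∀ k ∈ I, e.IsEnergy k (E k)

/-- An edge state curve: a family with no extension to a larger arc. -/
def Edge.IsCurve (e : Edge) (I : Set Real.Angle) (E : Real.Angle → ℝ) : Prop :=
  e.IsFamily I E ∧ ∀ (I' : Set Real.Angle) (E' : Real.Angle → ℝ), e.IsFamily I' E' → I ⊆ I' →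
    Set.EqOn E' E I → I' = I

/-- `κ` is a Dirac point: `1 + exp(i κ · v̊₁) + exp(i κ · v̊₂) = 0`. -/
def IsDirac (κ : ℂ) : Prop :=
  1 + Complex.exp (dot κ v1 * Complex.I) + Complex.exp (dot κ v2 * Complex.I) = 0

/-- `k` is the momentum `κ_D · v` of a band crossing. -/
def Edge.IsCrossing (e : Edge) (k : Real.Angle) : Prop :=
  ∃ κ : ℂ, IsDirac κ ∧ k = (dot κ e.dir : Real.Angle)

/-- The curve `E : I → ℝ` emerges from and terminates in a band crossing: `I` is the open arc from
`α` to `β`, it is not the whole circle, and `(k, E k)` converges to a band crossing at both ends. -/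
def Edge.Connects (e : Edge) (I : Set Real.Angle) (E : Real.Angle → ℝ) : Prop :=
  ∃ α β : ℝ, α < β ∧ β ≤ α + 2 * Real.pi ∧ I = (fun x : ℝ => (x : Real.Angle)) '' Set.Ioo α β ∧
    (e.IsCrossing (α : Real.Angle) ∧ Tendsto (fun x : ℝ => E (x : Real.Angle)) (𝓝[>] α) (𝓝 0)) ∧
    (e.IsCrossing (β : Real.Angle) ∧ Tendsto (fun x : ℝ => E (x : Real.Angle)) (𝓝[<] β) (𝓝 0))

end Pool.Agent.Q235.HE
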