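import Pool.Agent.Q235.HE.Def

set_option autoImplicit false

/-!
# The geometry of the honeycomb and of the edge `(3, 1)`
-/

namespace Pool.Agent.Q235.HE

open scoped Topology
open Filter

theorem sqrt3_pos : 0 < Real.sqrt 3 := Real.sqrt_pos.2 (by norm_num)

theorem sqrt3_sq : Real.sqrt 3 ^ 2 = 3 := Real.sq_sqrt (by norm_num)

/-- The offset of the B-sites, in units of `1/√3`. -/
def off (i : Bool) : ℝ := if i then 1 else 0

theorem pos_re (i : Bool) (m n : ℤ) :
    (pos (i, m, n)).re = off i / Real.sqrt 3 + (m + n) * (Real.sqrt 3 / 2) := by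
  cases i <;> simp [pos, v1, v2, off] <;> ring

theorem pos_im (i : Bool) (m n : ℤ) : (pos (i, m, n)).im = (m - n) / 2 := by
  cases i <;> simp [pos, v1, v2] <;> ring

/-- Nearest neighbours, algebraically. -/
theorem near_iff (i i' : Bool) (m n m' n' : ℤ) :
    ‖pos (i', m', n') - pos (i, m, n)‖ = 1 / Real.sqrt 3 ↔
      (off i' - off i) ^ 2 + 3 * (off i' - off i) * ((m' - m : ℤ) + (n' - n : ℤ)) +
        3 * (((m' - m : ℤ) : ℝ) ^ 2 + (m' - m : ℤ) * (n' - n : ℤ) + ((n' - n : ℤ) : ℝ) ^ 2) = 1 := by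
  have h3 := sqrt3_pos
  have h3' := sqrt3_sq
  have e : ‖pos (i', m', n') - pos (i, m, n)‖ ^ 2 * 3 =
      (off i' - off i) ^ 2 + 3 * (off i' - off i) * ((m' - m : ℤ) + (n' - n : ℤ)) +
        3 * (((m' - m : ℤ) : ℝ) ^ 2 + (m' - m : ℤ) * (n' - n : ℤ) + ((n' - n : ℤ) : ℝ) ^ 2) := by
    rw [← Complex.normSq_eq_norm_sq, Complex.normSq_apply, Complex.sub_re, Complex.sub_im, pos_re,
      pos_re, pos_im, pos_im]
    push_cast
    have h5 : (off i' / Real.sqrt 3 + (m' + n') * (Real.sqrt 3 / 2)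
        - (off i / Real.sqrt 3 + (m + n) * (Real.sqrt 3 / 2))) =
        (2 * (off i' - off i) + 3 * ((m' - m) + (n' - n))) / (2 * Real.sqrt 3) := by
      field_simp
      rw [h3']
      ring
    rw [h5]
    have h6 : (2 * (off i' - off i) + 3 * (((m' : ℝ) - m) + (n' - n))) / (2 * Real.sqrt 3) *
        ((2 * (off i' - off i) + 3 * ((m' - m) + (n' - n))) / (2 * Real.sqrt 3)) =
        (2 * (off i' - off i) + 3 * ((m' - m) + (n' - n))) ^ 2 / 12 := by
      rw [div_mul_div_comm]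
      rw [show 2 * Real.sqrt 3 * (2 * Real.sqrt 3) = 4 * Real.sqrt 3 ^ 2 by ring, h3']
      ring
    rw [h6]
    ring
  rw [← e]
  constructor
  · intro h
    rw [h, div_pow, h3']
    norm_num
  · intro h
    have h1 : ‖pos (i', m', n') - pos (i, m, n)‖ ^ 2 = (1 / Real.sqrt 3) ^ 2 := by
      rw [div_pow, h3']
      linarith
    exact (sq_eq_sq₀ (norm_nonneg _) (by positivity)).1 h1

theorem int_cases {x y : ℤ} (h : x ^ 2 + x * y + y ^ 2 + x + y = 0) :
    (x = 0 ∧ y = 0) ∨ (x = -1 ∧ y = 0) ∨ (x = 0 ∧ y = -1) := by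
  have h2 : x ^ 2 + y ^ 2 + (x + y + 1) ^ 2 = 1 := by nlinarith
  have hx : -1 ≤ x ∧ x ≤ 1 := by constructor <;> nlinarith [sq_nonneg y, sq_nonneg (x + y + 1)]
  have hy : -1 ≤ y ∧ y ≤ 1 := by constructor <;> nlinarith [sq_nonneg x, sq_nonneg (x + y + 1)]
  obtain ⟨x1, x2⟩ := hx
  obtain ⟨y1, y2⟩ := hy
  interval_cases x <;> interval_cases y <;> simp_all

theorem near_same (i : Bool) (m n m' n' : ℤ) :
    ‖pos (i, m', n') - pos (i, m, n)‖ ≠ 1 / Real.sqrt 3 := by
  rw [Ne, near_iff, sub_self]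
  intro h
  have h1 : (3 : ℤ) * ((m' - m) ^ 2 + (m' - m) * (n' - n) + (n' - n) ^ 2) = 1 := by
    have h2 : (3 : ℝ) * ((((m' - m : ℤ)) : ℝ) ^ 2 + ((m' - m : ℤ) : ℝ) * ((n' - n : ℤ) : ℝ)
        + ((n' - n : ℤ) : ℝ) ^ 2) = 1 := by linarith
    exact_mod_cast h2
  omega

theorem near_AB (m n m' n' : ℤ) :
    ‖pos (true, m', n') - pos (false, m, n)‖ = 1 / Real.sqrt 3 ↔
      (m' = m ∧ n' = n) ∨ (m' = m - 1 ∧ n' = n) ∨ (m' = m ∧ n' = n - 1) := by
  rw [near_iff]
  simp only [off, if_true, Bool.false_eq_true, if_false]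
  constructor
  · intro h
    have h1 : (m' - m) ^ 2 + (m' - m) * (n' - n) + (n' - n) ^ 2 + (m' - m) + (n' - n) = 0 := by
      have h2 : ((m' - m : ℤ) : ℝ) ^ 2 + ((m' - m : ℤ) : ℝ) * ((n' - n : ℤ) : ℝ)
          + ((n' - n : ℤ) : ℝ) ^ 2 + ((m' - m : ℤ) : ℝ) + ((n' - n : ℤ) : ℝ) = 0 := by linarith
      exact_mod_cast h2
    rcases int_cases h1 with ⟨h2, h3⟩ | ⟨h2, h3⟩ | ⟨h2, h3⟩
    · left; constructor <;> omega
    · right; left; constructor <;> omega
    · right; right; constructor <;> omega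
  · rintro (⟨rfl, rfl⟩ | ⟨rfl, rfl⟩ | ⟨rfl, rfl⟩) <;> push_cast <;> ring

theorem near_BA (m n m' n' : ℤ) :
    ‖pos (false, m', n') - pos (true, m, n)‖ = 1 / Real.sqrt 3 ↔
      (m' = m ∧ n' = n) ∨ (m' = m + 1 ∧ n' = n) ∨ (m' = m ∧ n' = n + 1) := by
  rw [norm_sub_rev, near_AB]
  constructor
  · rintro (⟨rfl, rfl⟩ | ⟨rfl, rfl⟩ | ⟨rfl, rfl⟩) <;> omega
  · rintro (⟨rfl, rfl⟩ | ⟨rfl, rfl⟩ | ⟨rfl, rfl⟩) <;> omega

/-- The Hamiltonian at an A-site. -/
theorem ham_A (e : Edge) (ψ : Site → ℂ) (h : ∀ s, s ∉ e.sites → ψ s = 0) (m n : ℤ) :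
    e.ham ψ (false, m, n) = ψ (true, m, n) + ψ (true, m - 1, n) + ψ (true, m, n - 1) := by
  rw [Edge.ham, finsum_mem_eq_sum_of_inter_support_eq (t := {(true, m, n), (true, m - 1, n),
    (true, m, n - 1)})]
  · rw [Finset.sum_insert, Finset.sum_insert, Finset.sum_singleton, add_assoc]
    · simp
    · simp
      omega
  · ext ⟨i, m', n'⟩
    simp only [Set.mem_inter_iff, Set.mem_ofPred_eq, Function.mem_support, Finset.coe_insert,
      Finset.coe_singleton, Set.mem_insert_iff, Set.mem_singleton_iff, Prod.mk.injEq]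
    constructor
    · rintro ⟨⟨h1, h2⟩, h3⟩
      refine ⟨?_, h3⟩
      cases i
      · exact absurd h2 (near_same _ _ _ _ _)
      · simpa using (near_AB _ _ _ _).1 h2
    · rintro ⟨h1, h3⟩
      refine ⟨⟨?_, ?_⟩, h3⟩
      · by_contra h4
        exact h3 (h _ h4)
      · cases i
        · simp at h1
        · exact (near_AB _ _ _ _).2 (by simpa using h1)

/-- The Hamiltonian at a B-site. -/
theorem ham_B (e : Edge) (ψ : Site → ℂ) (h : ∀ s, s ∉ e.sites → ψ s = 0) (m n : ℤ) :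
    e.ham ψ (true, m, n) = ψ (false, m, n) + ψ (false, m + 1, n) + ψ (false, m, n + 1) := by
  rw [Edge.ham, finsum_mem_eq_sum_of_inter_support_eq (t := {(false, m, n), (false, m + 1, n),
    (false, m, n + 1)})]
  · rw [Finset.sum_insert, Finset.sum_insert, Finset.sum_singleton, add_assoc]
    · simp
    · simp
  · ext ⟨i, m', n'⟩
    simp only [Set.mem_inter_iff, Set.mem_ofPred_eq, Function.mem_support, Finset.coe_insert,
      Finset.coe_singleton, Set.mem_insert_iff, Set.mem_singleton_iff, Prod.mk.injEq]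
    constructor
    · rintro ⟨⟨h1, h2⟩, h3⟩
      refine ⟨?_, h3⟩
      cases i
      · simpa using (near_BA _ _ _ _).1 h2
      · exact absurd h2 (near_same _ _ _ _ _)
    · rintro ⟨h1, h3⟩
      refine ⟨⟨?_, ?_⟩, h3⟩
      · by_contra h4
        exact h3 (h _ h4)
      · cases i
        · exact (near_BA _ _ _ _).2 (by simpa using h1)
        · simp at h1

/-- The edge with direction `3 v̊₁ + v̊₂ = (2√3, 1)`, normal vector `(2/√3, -4)` and level `1/2`. -/
noncomputable def e31 : Edge where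
  a := 3
  b := 1
  coprime := ⟨0, 1, by norm_num⟩
  ν := ⟨2 / Real.sqrt 3, -4⟩
  ν_ne := by
    intro h
    have := congrArg Complex.im h
    norm_num at this
  perp := by
    have h3 := sqrt3_pos
    simp [dot, v1, v2]
    field_simp
    ring
  c := 1 / 2

theorem dir31 : e31.dir = ⟨2 * Real.sqrt 3, 1⟩ := by
  apply Complex.ext
  · simp [Edge.dir, e31, v1, v2]; ring
  · simp [Edge.dir, e31, v1, v2]; ring

theorem level31 (i : Bool) (m n : ℤ) :
    dot (pos (i, m, n)) e31.ν = off i * (2 / 3) + (3 * n - m) := by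
  have h3 := sqrt3_pos
  have h3' := sqrt3_sq
  have e : e31.ν = ⟨2 / Real.sqrt 3, -4⟩ := rfl
  rw [dot, pos_re, pos_im, e]
  simp only
  have h5 : (off i / Real.sqrt 3 + ((m : ℝ) + n) * (Real.sqrt 3 / 2)) * (2 / Real.sqrt 3) =
      2 * off i / Real.sqrt 3 ^ 2 + (m + n) := by
    field_simp
  rw [h5, h3']
  ring

theorem along31 (i : Bool) (m n : ℤ) :
    dot (pos (i, m, n)) e31.dir = off i * 2 + (7 * m + 5 * n) / 2 := by
  have h3 := sqrt3_pos
  have h3' := sqrt3_sq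
  rw [dot, pos_re, pos_im, dir31]
  simp only
  have h5 : (off i / Real.sqrt 3 + ((m : ℝ) + n) * (Real.sqrt 3 / 2)) * (2 * Real.sqrt 3) =
      2 * off i + (m + n) * Real.sqrt 3 ^ 2 := by
    field_simp
  rw [h5, h3']
  ring

theorem dirdir31 : dot e31.dir e31.dir = 13 := by
  rw [dir31, dot]
  have h3' := sqrt3_sq
  simp only
  nlinarith

theorem memA (m n : ℤ) : (false, m, n) ∈ e31.sites ↔ 1 ≤ 3 * n - m := by
  change (1 / 2 : ℝ) ≤ dot (pos (false, m, n)) e31.ν ↔ _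
  rw [level31]
  simp only [off, Bool.false_eq_true, if_false, zero_mul, zero_add]
  constructor
  · intro h
    by_contra hcon
    push Not at hcon
    have h1 : 3 * n - m ≤ 0 := by omega
    have h2 : (((3 * n - m : ℤ)) : ℝ) ≤ 0 := by exact_mod_cast h1
    push_cast at h2
    linarith
  · intro h
    have h2 : (1 : ℝ) ≤ ((3 * n - m : ℤ) : ℝ) := by exact_mod_cast h
    push_cast at h2
    linarith

theorem memB (m n : ℤ) : (true, m, n) ∈ e31.sites ↔ 0 ≤ 3 * n - m := by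
  change (1 / 2 : ℝ) ≤ dot (pos (true, m, n)) e31.ν ↔ _
  rw [level31]
  simp only [off, if_true]
  constructor
  · intro h
    by_contra hcon
    push Not at hcon
    have h1 : 3 * n - m ≤ -1 := by omega
    have h2 : (((3 * n - m : ℤ)) : ℝ) ≤ -1 := by exact_mod_cast h1
    push_cast at h2
    linarith
  · intro h
    have h2 : (0 : ℝ) ≤ ((3 * n - m : ℤ) : ℝ) := by exact_mod_cast h
    push_cast at h2
    linarith

theorem memPA (m n : ℤ) : (false, m, n) ∈ e31.period ↔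
    1 ≤ 3 * n - m ∧ 0 ≤ 7 * m + 5 * n ∧ 7 * m + 5 * n < 26 := by
  change ((false, m, n) ∈ e31.sites ∧ 0 ≤ dot (pos (false, m, n)) e31.dir ∧
    dot (pos (false, m, n)) e31.dir < dot e31.dir e31.dir) ↔ _
  rw [memA, along31, dirdir31]
  simp only [off, Bool.false_eq_true, if_false, zero_mul, zero_add]
  refine and_congr Iff.rfl (and_congr ?_ ?_)
  · rw [← @Int.cast_le ℝ]
    push_cast
    constructor <;> intro h <;> linarith
  · rw [← @Int.cast_lt ℝ]
    push_cast
    constructor <;> intro h <;> linarith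

theorem memPB (m n : ℤ) : (true, m, n) ∈ e31.period ↔
    0 ≤ 3 * n - m ∧ 0 ≤ 7 * m + 5 * n + 4 ∧ 7 * m + 5 * n + 4 < 26 := by
  change ((true, m, n) ∈ e31.sites ∧ 0 ≤ dot (pos (true, m, n)) e31.dir ∧
    dot (pos (true, m, n)) e31.dir < dot e31.dir e31.dir) ↔ _
  rw [memB, along31, dirdir31]
  simp only [off, if_true]
  refine and_congr Iff.rfl (and_congr ?_ ?_)
  · rw [← @Int.cast_le ℝ]
    push_cast
    constructor <;> intro h <;> linarith
  · rw [← @Int.cast_lt ℝ]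
    push_cast
    constructor <;> intro h <;> linarith

end Pool.Agent.Q235.HE
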