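import Mathlib

set_option autoImplicit false

/-!
# The operators `T = S + S² + λ S*²` and `T' = S* + S*² + conj λ S²` on `ℓ²(ℕ)`
-/

namespace Pool.Agent.Q235.HE

open scoped ENNReal InnerProductSpace

/-- The Hilbert space of square summable sequences. -/
abbrev H : Type := lp (fun _ : ℕ => ℂ) 2

theorem memlp_iff (f : ℕ → ℂ) : Memℓp (E := fun _ : ℕ => ℂ) f 2 ↔ Summable fun n => ‖f n‖ ^ 2 := by
  rw [memℓp_gen_iff (by norm_num)]
  simp

theorem norm_sq (x : H) : ‖x‖ ^ 2 = ∑' n, ‖x n‖ ^ 2 := by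
  have h := lp.norm_rpow_eq_tsum (p := 2) (by norm_num) x
  simpa using h

theorem summable_sq (x : H) : Summable fun n => ‖x n‖ ^ 2 := (memlp_iff _).1 x.2

/-- The shifted sequence. -/
def sh (x : ℕ → ℂ) : ℕ → ℂ
  | 0 => 0
  | n + 1 => x n

theorem memlp_sh {x : ℕ → ℂ} (hx : Memℓp (E := fun _ : ℕ => ℂ) x 2) :
    Memℓp (E := fun _ : ℕ => ℂ) (sh x) 2 := by
  rw [memlp_iff] at hx ⊢
  rw [← summable_nat_add_iff 1]
  exact hx

theorem memlp_tail {x : ℕ → ℂ} (hx : Memℓp (E := fun _ : ℕ => ℂ) x 2) :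
    Memℓp (E := fun _ : ℕ => ℂ) (fun n => x (n + 1)) 2 := by
  rw [memlp_iff] at hx ⊢
  exact (summable_nat_add_iff 1).2 hx

/-- The unilateral shift. -/
noncomputable def shift : H →ₗᵢ[ℂ] H where
  toFun x := ⟨sh x, memlp_sh x.2⟩
  map_add' x y := by
    apply Subtype.ext
    funext n
    rcases n with _ | n
    · exact (add_zero (0 : ℂ)).symm
    · rfl
  map_smul' c x := by
    apply Subtype.ext
    funext n
    rcases n with _ | n
    · exact (smul_zero c).symm
    · rfl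
  norm_map' x := by
    rw [← sq_eq_sq₀ (norm_nonneg _) (norm_nonneg _), norm_sq, norm_sq]
    have hs : Summable fun n => ‖sh x n‖ ^ 2 := (memlp_iff _).1 (memlp_sh x.2)
    change ∑' n, ‖sh x n‖ ^ 2 = _
    rw [hs.tsum_eq_zero_add]
    simp [sh]

/-- The shift as a bounded operator. -/
noncomputable def S : H →L[ℂ] H := shift.toContinuousLinearMap

@[simp] theorem S_zero (x : H) : S x 0 = 0 := rfl

@[simp] theorem S_succ (x : H) (n : ℕ) : S x (n + 1) = x n := rfl

theorem norm_S (x : H) : ‖S x‖ = ‖x‖ := shift.norm_map x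

/-- The backward shift. -/
noncomputable def L : H →L[ℂ] H :=
  LinearMap.mkContinuous
    { toFun := fun x => ⟨fun n => x (n + 1), memlp_tail x.2⟩
      map_add' := fun x y => by
        apply Subtype.ext
        funext n
        rfl
      map_smul' := fun c x => by
        apply Subtype.ext
        funext n
        rfl } 1 (by
    intro x
    rw [one_mul, ← sq_le_sq₀ (norm_nonneg _) (norm_nonneg _), norm_sq, norm_sq,
      (summable_sq x).tsum_eq_zero_add]
    have : (0 : ℝ) ≤ ‖x 0‖ ^ 2 := by positivity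
    change ∑' n, ‖x (n + 1)‖ ^ 2 ≤ _
    linarith)

@[simp] theorem L_apply (x : H) (n : ℕ) : L x n = x (n + 1) := rfl

theorem norm_L_le (x : H) : ‖L x‖ ≤ ‖x‖ := by
  have h := L.le_opNorm x
  have h2 : ‖L‖ ≤ 1 := LinearMap.mkContinuous_norm_le _ zero_le_one _
  calc ‖L x‖ ≤ ‖L‖ * ‖x‖ := h
    _ ≤ 1 * ‖x‖ := by gcongr
    _ = ‖x‖ := one_mul _

theorem ext' {x y : H} (h : ∀ n, x n = y n) : x = y := by
  apply Subtype.ext
  funext n
  exact h n

@[simp] theorem LS (x : H) : L (S x) = x := ext' fun n => by simp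

/-- The backward shift removes the first coordinate. -/
theorem norm_sq_L (x : H) : ‖L x‖ ^ 2 + ‖x 0‖ ^ 2 = ‖x‖ ^ 2 := by
  rw [norm_sq, norm_sq x, (summable_sq x).tsum_eq_zero_add]
  simp only [L_apply]
  ring

theorem inner_S (x y : H) : ⟪S x, y⟫_ℂ = ⟪x, L y⟫_ℂ := by
  have hs : Summable fun n => ⟪S x n, y n⟫_ℂ := lp.summable_inner (𝕜 := ℂ) (S x) y
  rw [lp.inner_eq_tsum, lp.inner_eq_tsum, hs.tsum_eq_zero_add, S_zero, inner_zero_left, zero_add]
  rfl

theorem inner_L (x y : H) : ⟪L x, y⟫_ℂ = ⟪x, S y⟫_ℂ := by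
  rw [← inner_conj_symm, ← inner_S, inner_conj_symm]

/-- `T = S + S² + λ S*²`. -/
noncomputable def T (lam : ℂ) : H →L[ℂ] H := S + S.comp S + lam • L.comp L

/-- `T' = S* + S*² + conj λ S²`, the adjoint of `T`. -/
noncomputable def T' (lam : ℂ) : H →L[ℂ] H := L + L.comp L + (starRingEnd ℂ lam) • S.comp S

theorem T_apply (lam : ℂ) (x : H) : T lam x = S x + S (S x) + lam • L (L x) := rfl

theorem T'_apply (lam : ℂ) (x : H) :
    T' lam x = L x + L (L x) + (starRingEnd ℂ lam) • S (S x) := rfl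

theorem inner_T (lam : ℂ) (x y : H) : ⟪T lam x, y⟫_ℂ = ⟪x, T' lam y⟫_ℂ := by
  rw [T_apply, T'_apply]
  simp only [inner_add_left, inner_add_right, inner_smul_left, inner_smul_right]
  rw [inner_S, inner_S, inner_S, inner_L, inner_L]

theorem coe_add (x y : H) (n : ℕ) : (x + y) n = x n + y n := rfl

theorem coe_sub (x y : H) (n : ℕ) : (x - y) n = x n - y n := rfl

theorem coe_smul (c : ℂ) (x : H) (n : ℕ) : (c • x) n = c * x n := rfl

theorem coe_zero (n : ℕ) : (0 : H) n = 0 := rfl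

theorem T_coe_zero (lam : ℂ) (x : H) : T lam x 0 = lam * x 2 := by
  rw [T_apply, coe_add, coe_add, coe_smul]
  simp

theorem T_coe_one (lam : ℂ) (x : H) : T lam x 1 = x 0 + lam * x 3 := by
  rw [T_apply, coe_add, coe_add, coe_smul]
  have h1 : S x 1 = x 0 := S_succ x 0
  have h2 : S (S x) 1 = 0 := (S_succ (S x) 0).trans (S_zero x)
  rw [h1, h2]
  simp

theorem T_coe (lam : ℂ) (x : H) (n : ℕ) :
    T lam x (n + 2) = x (n + 1) + x n + lam * x (n + 4) := by
  rw [T_apply, coe_add, coe_add, coe_smul]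
  rfl

theorem T'_coe_zero (lam : ℂ) (x : H) : T' lam x 0 = x 1 + x 2 := by
  rw [T'_apply, coe_add, coe_add, coe_smul]
  simp

theorem T'_coe_one (lam : ℂ) (x : H) : T' lam x 1 = x 2 + x 3 := by
  rw [T'_apply, coe_add, coe_add, coe_smul]
  have h2 : S (S x) 1 = 0 := (S_succ (S x) 0).trans (S_zero x)
  rw [h2]
  simp

theorem T'_coe (lam : ℂ) (x : H) (n : ℕ) :
    T' lam x (n + 2) = x (n + 3) + x (n + 4) + (starRingEnd ℂ lam) * x n := by
  rw [T'_apply, coe_add, coe_add, coe_smul]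
  rfl

/-- `T` depends on `λ` in a Lipschitz way. -/
theorem norm_T_sub (lam mu : ℂ) (x : H) : ‖T lam x - T mu x‖ ≤ ‖lam - mu‖ * ‖x‖ := by
  have h : T lam x - T mu x = (lam - mu) • L (L x) := by
    rw [T_apply, T_apply, sub_smul]
    abel
  rw [h, norm_smul]
  gcongr
  exact (norm_L_le _).trans (norm_L_le _)

/-- `(λ + S³ + S⁴) x`. -/
noncomputable def P (lam : ℂ) (x : H) : H := lam • x + S (S (S x)) + S (S (S (S x)))

theorem LLP (lam : ℂ) (x : H) : L (L (P lam x)) = T lam x := by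
  rw [P, T_apply]
  simp only [map_add, map_smul, LS]
  abel

theorem norm_sq_P (lam : ℂ) (hl : ‖lam‖ = 1) (x : H) :
    ‖T lam x‖ ^ 2 + ‖x 0‖ ^ 2 + ‖x 1‖ ^ 2 = ‖P lam x‖ ^ 2 := by
  have h1 := norm_sq_L (P lam x)
  have h2 := norm_sq_L (L (P lam x))
  rw [LLP] at h2
  have e0 : P lam x 0 = lam * x 0 := by
    rw [P, coe_add, coe_add, coe_smul]; simp
  have e1 : L (P lam x) 0 = lam * x 1 := by
    rw [L_apply, P, coe_add, coe_add, coe_smul]
    have h2 : S (S (S x)) (0 + 1) = 0 := (S_succ (S (S x)) 0).trans (S_zero (S x))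
    have h3 : S (S (S (S x))) (0 + 1) = 0 := (S_succ (S (S (S x))) 0).trans (S_zero (S (S x)))
    rw [h2, h3]
    simp
  rw [e0, norm_mul, hl, one_mul] at h1
  rw [e1, norm_mul, hl, one_mul] at h2
  linarith

theorem norm_P_sub (lam mu : ℂ) (x : H) : ‖P lam x - P mu x‖ ≤ ‖lam - mu‖ * ‖x‖ := by
  have h : P lam x - P mu x = (lam - mu) • x := by
    rw [P, P, sub_smul]
    abel
  rw [h, norm_smul]

end Pool.Agent.Q235.HE
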