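import Pool.Agent.Q235.HE.Op
import Pool.Agent.Q235.HE.Geo

set_option autoImplicit false

/-!
# Edge states of the edge `(3, 1)` are pairs `T a = E b`, `T' b = E a`
-/

namespace Pool.Agent.Q235.HE

open scoped Topology
open Filter

theorem quasi_zpow (k : Real.Angle) (E : ℝ) (ψ : Site → ℂ) (h : e31.IsEdgeState k E ψ) (i : Bool)
    (m n l : ℤ) : ψ (i, m + 3 * l, n + l) = (k.toCircle : ℂ) ^ l * ψ (i, m, n) := by
  have hz : (k.toCircle : ℂ) ≠ 0 := Circle.coe_ne_zero _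
  have hq : ∀ m n : ℤ, ψ (i, m + 3, n + 1) = (k.toCircle : ℂ) * ψ (i, m, n) := fun m n =>
    h.quasi i m n
  induction l using Int.induction_on with
  | zero => simp
  | succ l ih =>
    rw [show m + 3 * ((l : ℤ) + 1) = m + 3 * l + 3 by ring,
      show n + ((l : ℤ) + 1) = n + l + 1 by ring, hq, ih, zpow_add_one₀ hz]
    ring
  | pred l ih =>
    have h1 := hq (m + 3 * (-(l : ℤ) - 1)) (n + (-(l : ℤ) - 1))
    rw [show m + 3 * (-(l : ℤ) - 1) + 3 = m + 3 * (-(l : ℤ)) by ring,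
      show n + (-(l : ℤ) - 1) + 1 = n + (-(l : ℤ)) by ring, ih] at h1
    rw [zpow_sub_one₀ hz]
    rw [mul_assoc, mul_comm _ (ψ (i, m, n)), ← mul_assoc, h1]
    field_simp

theorem norm_quasi (k : Real.Angle) (E : ℝ) (ψ : Site → ℂ) (h : e31.IsEdgeState k E ψ) (i : Bool)
    (m n l : ℤ) : ‖ψ (i, m + 3 * l, n + l)‖ = ‖ψ (i, m, n)‖ := by
  rw [quasi_zpow k E ψ h, norm_mul, norm_zpow, Circle.norm_coe, one_zpow, one_mul]

/-- From an edge state to a pair of sequences. -/
theorem to_pair (k : Real.Angle) (E : ℝ) (h : e31.IsEnergy k E) :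
    ∃ a b : H, (a ≠ 0 ∨ b ≠ 0) ∧ T (k.toCircle : ℂ) a = (E : ℂ) • b ∧
      T' (k.toCircle : ℂ) b = (E : ℂ) • a := by
  obtain ⟨ψ, h⟩ := h
  have hz : (k.toCircle : ℂ) ≠ 0 := Circle.coe_ne_zero _
  have hzc : (starRingEnd ℂ) (k.toCircle : ℂ) = (k.toCircle : ℂ)⁻¹ := by
    rw [← Circle.coe_inv_eq_conj, Circle.coe_inv]
  -- the two sequences
  have ha : Memℓp (E := fun _ : ℕ => ℂ) (fun i : ℕ => ψ (false, -((i : ℤ) + 1), 0)) 2 := by
    rw [memlp_iff]
    have hmem : ∀ i : ℕ, ((false, -((i : ℤ) + 1) + 3 * ((7 * ((i : ℤ) + 1) + 25) / 26),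
        0 + (7 * ((i : ℤ) + 1) + 25) / 26) : Site) ∈ e31.period := by
      intro i
      rw [memPA]
      omega
    have hinj : Function.Injective (fun i : ℕ => (⟨_, hmem i⟩ : e31.period)) := by
      intro i j hij
      have h1 := congrArg (fun s : e31.period => 3 * s.1.2.2 - s.1.2.1) hij
      simp only at h1
      omega
    refine (h.summable.comp_injective hinj).congr fun i => ?_
    simp only [Function.comp]
    rw [norm_quasi k E ψ h]
  have hb : Memℓp (E := fun _ : ℕ => ℂ) (fun i : ℕ => ψ (true, -(i : ℤ), 0)) 2 := by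
    rw [memlp_iff]
    have hmem : ∀ i : ℕ, ((true, -(i : ℤ) + 3 * ((7 * (i : ℤ) + 21) / 26),
        0 + (7 * (i : ℤ) + 21) / 26) : Site) ∈ e31.period := by
      intro i
      rw [memPB]
      omega
    have hinj : Function.Injective (fun i : ℕ => (⟨_, hmem i⟩ : e31.period)) := by
      intro i j hij
      have h1 := congrArg (fun s : e31.period => 3 * s.1.2.2 - s.1.2.1) hij
      simp only at h1
      omega
    refine (h.summable.comp_injective hinj).congr fun i => ?_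
    simp only [Function.comp]
    rw [norm_quasi k E ψ h]
  set a : H := ⟨_, ha⟩ with hadef
  set b : H := ⟨_, hb⟩ with hbdef
  have av : ∀ i : ℕ, a i = ψ (false, -((i : ℤ) + 1), 0) := fun i => rfl
  have bv : ∀ i : ℕ, b i = ψ (true, -(i : ℤ), 0) := fun i => rfl
  have offA : ∀ m n : ℤ, 3 * n - m < 1 → ψ (false, m, n) = 0 := fun m n hmn =>
    h.off _ fun hc => by rw [memA] at hc; omega
  have offB : ∀ m n : ℤ, 3 * n - m < 0 → ψ (true, m, n) = 0 := fun m n hmn =>
    h.off _ fun hc => by rw [memB] at hc; omega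
  have eqA : ∀ i : ℕ, (E : ℂ) * a i = ψ (true, -((i : ℤ) + 1), 0) + ψ (true, -((i : ℤ) + 1) - 1, 0)
      + (starRingEnd ℂ) (k.toCircle : ℂ) * ψ (true, -((i : ℤ) + 1) + 3, 0) := by
    intro i
    have h1 := h.eig (false, -((i : ℤ) + 1), 0) (by rw [memA]; omega)
    rw [ham_A e31 ψ h.off] at h1
    rw [av, ← h1]
    congr 1
    have h2 := quasi_zpow k E ψ h true (-((i : ℤ) + 1) + 3) 0 (-1)
    rw [zpow_neg_one] at h2
    rw [hzc, ← h2]
    congr 3
    ring
  have eqB : ∀ i : ℕ, (E : ℂ) * b i = ψ (false, -(i : ℤ), 0) + ψ (false, -(i : ℤ) + 1, 0)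
      + (k.toCircle : ℂ) * ψ (false, -(i : ℤ) - 3, 0) := by
    intro i
    have h1 := h.eig (true, -(i : ℤ), 0) (by rw [memB]; omega)
    rw [ham_B e31 ψ h.off] at h1
    rw [bv, ← h1]
    congr 1
    have h2 := quasi_zpow k E ψ h false (-(i : ℤ) - 3) 0 1
    rw [zpow_one] at h2
    rw [← h2]
    congr 3
    ring
  refine ⟨a, b, ?_, ?_, ?_⟩
  · by_contra hcon
    push Not at hcon
    obtain ⟨h1, h2⟩ := hcon
    apply h.ne
    funext ⟨i, m, n⟩
    have h3 : ψ (i, m, n) = (k.toCircle : ℂ) ^ n * ψ (i, m - 3 * n, 0) := by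
      rw [← quasi_zpow k E ψ h]
      congr 3
      · ring
      · ring
    rw [h3]
    have h4 : ψ (i, m - 3 * n, 0) = 0 := by
      cases i
      · rcases lt_or_ge (3 * n - m) 1 with h5 | h5
        · exact offA _ _ (by omega)
        · have h6 := av (3 * n - m - 1).toNat
          rw [h1, coe_zero] at h6
          rw [h6]
          congr 3
          omega
      · rcases lt_or_ge (3 * n - m) 0 with h5 | h5
        · exact offB _ _ (by omega)
        · have h6 := bv (3 * n - m).toNat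
          rw [h2, coe_zero] at h6
          rw [h6]
          congr 3
          omega
    rw [h4, mul_zero]
    rfl
  · apply ext'
    intro n
    rw [coe_smul, eqB]
    rcases n with _ | _ | n
    · rw [T_coe_zero, av, offA (-((0 : ℕ) : ℤ)) 0 (by simp), offA (-((0 : ℕ) : ℤ) + 1) 0 (by simp),
        zero_add, zero_add]
      congr 3
    · rw [T_coe_one, av, av, offA (-((0 + 1 : ℕ) : ℤ) + 1) _ (by simp), add_zero]
      congr 3
    · rw [T_coe, av, av, av]
      have e1 : (-(((n + 1 : ℕ) : ℤ) + 1)) = -((n + 1 + 1 : ℕ) : ℤ) := by push_cast; ring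
      have e2 : (-(((n : ℕ) : ℤ) + 1)) = -((n + 1 + 1 : ℕ) : ℤ) + 1 := by push_cast; ring
      have e3 : (-(((n + 4 : ℕ) : ℤ) + 1)) = -((n + 1 + 1 : ℕ) : ℤ) - 3 := by push_cast; ring
      rw [e1, e2, e3]
  · apply ext'
    intro n
    rw [coe_smul, eqA]
    rcases n with _ | _ | n
    · rw [T'_coe_zero, bv, bv, offB (-(((0 : ℕ) : ℤ) + 1) + 3) _ (by simp), mul_zero, add_zero]
      congr 3
    · rw [T'_coe_one, bv, bv, offB (-(((0 + 1 : ℕ) : ℤ) + 1) + 3) _ (by simp), mul_zero, add_zero]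
      congr 3
    · rw [T'_coe, bv, bv, bv]
      have e1 : (-((n + 3 : ℕ) : ℤ)) = -(((n + 1 + 1 : ℕ) : ℤ) + 1) := by push_cast; ring
      have e2 : (-((n + 4 : ℕ) : ℤ)) = -(((n + 1 + 1 : ℕ) : ℤ) + 1) - 1 := by push_cast; ring
      have e3 : (-((n : ℕ) : ℤ)) = -(((n + 1 + 1 : ℕ) : ℤ) + 1) + 3 := by push_cast; ring
      rw [e1, e2, e3]

/-- Extension of a sequence by zero to the negative integers. -/
def ez (f : ℕ → ℂ) (j : ℤ) : ℂ := if 0 ≤ j then f j.toNat else 0

theorem ez_nat (f : ℕ → ℂ) (n : ℕ) : ez f (n : ℤ) = f n := by simp [ez]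

theorem ez_neg (f : ℕ → ℂ) {j : ℤ} (h : j < 0) : ez f j = 0 := if_neg (not_le.2 h)

/-- The function on the sites given by a pair of sequences. -/
noncomputable def mk (z : ℂ) (a b : ℕ → ℂ) : Site → ℂ
  | (false, m, n) => z ^ n * ez a (3 * n - m - 1)
  | (true, m, n) => z ^ n * ez b (3 * n - m)

/-- From a pair of sequences to an edge state. -/
theorem of_pair (k : Real.Angle) (E : ℝ) (a b : H) (hab : a ≠ 0 ∨ b ≠ 0)
    (h1 : T (k.toCircle : ℂ) a = (E : ℂ) • b) (h2 : T' (k.toCircle : ℂ) b = (E : ℂ) • a) :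
    e31.IsEnergy k E := by
  have hz : (k.toCircle : ℂ) ≠ 0 := Circle.coe_ne_zero _
  have hzc : (starRingEnd ℂ) (k.toCircle : ℂ) = (k.toCircle : ℂ)⁻¹ := by
    rw [← Circle.coe_inv_eq_conj, Circle.coe_inv]
  have ea : ∀ n, (E : ℂ) * b n = T (k.toCircle : ℂ) a n := fun n => by rw [h1, coe_smul]
  have eb : ∀ n, (E : ℂ) * a n = T' (k.toCircle : ℂ) b n := fun n => by rw [h2, coe_smul]
  set z : ℂ := (k.toCircle : ℂ) with hzdef
  have zn : ‖z‖ = 1 := Circle.norm_coe _
  have vA : ∀ m n : ℤ, mk z a b (false, m, n) = z ^ n * ez a (3 * n - m - 1) := fun _ _ => rfl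
  have vB : ∀ m n : ℤ, mk z a b (true, m, n) = z ^ n * ez b (3 * n - m) := fun _ _ => rfl
  have hoff : ∀ s, s ∉ e31.sites → mk z a b s = 0 := by
    rintro ⟨i, m, n⟩ hs
    cases i
    · rw [memA] at hs
      rw [vA, ez_neg _ (by omega), mul_zero]
    · rw [memB] at hs
      rw [vB, ez_neg _ (by omega), mul_zero]
  -- the equations in terms of the extended sequences
  have qa : ∀ i : ℕ, (E : ℂ) * ez b i = ez a (i - 1) + ez a (i - 2) + z * ez a (i + 2) := by
    intro i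
    rw [ez_nat, ea]
    rcases i with _ | _ | i
    · rw [T_coe_zero, ez_neg a (by simp), ez_neg a (by simp)]
      have : (((0 : ℕ) : ℤ) + 2) = ((2 : ℕ) : ℤ) := by norm_num
      rw [this, ez_nat]
      ring
    · rw [T_coe_one, ez_neg a (j := ((0 + 1 : ℕ) : ℤ) - 2) (by simp)]
      have e1 : (((0 + 1 : ℕ) : ℤ) - 1) = ((0 : ℕ) : ℤ) := by norm_num
      have e2 : (((0 + 1 : ℕ) : ℤ) + 2) = ((3 : ℕ) : ℤ) := by norm_num
      rw [e1, e2, ez_nat, ez_nat]
      ring
    · rw [T_coe]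
      have e1 : (((i + 1 + 1 : ℕ) : ℤ) - 1) = ((i + 1 : ℕ) : ℤ) := by push_cast; ring
      have e2 : (((i + 1 + 1 : ℕ) : ℤ) - 2) = ((i : ℕ) : ℤ) := by push_cast; ring
      have e3 : (((i + 1 + 1 : ℕ) : ℤ) + 2) = ((i + 4 : ℕ) : ℤ) := by push_cast; ring
      rw [e1, e2, e3, ez_nat, ez_nat, ez_nat]
  have qb : ∀ i : ℕ, (E : ℂ) * ez a i = ez b (i + 1) + ez b (i + 2) + z⁻¹ * ez b (i - 2) := by
    intro i
    rw [ez_nat, eb, ← hzc]
    rcases i with _ | _ | i
    · rw [T'_coe_zero, ez_neg b (j := ((0 : ℕ) : ℤ) - 2) (by simp)]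
      have e1 : (((0 : ℕ) : ℤ) + 1) = ((1 : ℕ) : ℤ) := by norm_num
      have e2 : (((0 : ℕ) : ℤ) + 2) = ((2 : ℕ) : ℤ) := by norm_num
      rw [e1, e2, ez_nat, ez_nat]
      ring
    · rw [T'_coe_one, ez_neg b (j := ((0 + 1 : ℕ) : ℤ) - 2) (by simp)]
      have e1 : (((0 + 1 : ℕ) : ℤ) + 1) = ((2 : ℕ) : ℤ) := by norm_num
      have e2 : (((0 + 1 : ℕ) : ℤ) + 2) = ((3 : ℕ) : ℤ) := by norm_num
      rw [e1, e2, ez_nat, ez_nat]
      ring
    · rw [T'_coe]
      have e1 : (((i + 1 + 1 : ℕ) : ℤ) + 1) = ((i + 3 : ℕ) : ℤ) := by push_cast; ring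
      have e2 : (((i + 1 + 1 : ℕ) : ℤ) + 2) = ((i + 4 : ℕ) : ℤ) := by push_cast; ring
      have e3 : (((i + 1 + 1 : ℕ) : ℤ) - 2) = ((i : ℕ) : ℤ) := by push_cast; ring
      rw [e1, e2, e3, ez_nat, ez_nat, ez_nat]
  refine ⟨mk z a b, hoff, ?_, ?_, ?_, ?_⟩
  · intro h0
    rcases hab with h | h
    · apply h
      apply ext'
      intro n
      have h3 := congrFun h0 (false, -((n : ℤ) + 1), 0)
      rw [vA, zpow_zero, one_mul] at h3
      have e1 : (3 * 0 - -((n : ℤ) + 1) - 1) = (n : ℤ) := by ring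
      rw [e1, ez_nat] at h3
      exact h3
    · apply h
      apply ext'
      intro n
      have h3 := congrFun h0 (true, -(n : ℤ), 0)
      rw [vB, zpow_zero, one_mul] at h3
      have e1 : (3 * 0 - -(n : ℤ)) = (n : ℤ) := by ring
      rw [e1, ez_nat] at h3
      exact h3
  · intro i m n
    have e : ((i, m + e31.a, n + e31.b) : Site) = (i, m + 3, n + 1) := rfl
    rw [e]
    cases i
    · rw [vA, vA, zpow_add_one₀ hz]
      have e1 : 3 * (n + 1) - (m + 3) - 1 = 3 * n - m - 1 := by ring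
      rw [e1]
      ring
    · rw [vB, vB, zpow_add_one₀ hz]
      have e1 : 3 * (n + 1) - (m + 3) = 3 * n - m := by ring
      rw [e1]
      ring
  · -- summability over one period
    let g : ℕ ⊕ ℕ → ℝ := Sum.elim (fun i => ‖a i‖ ^ 2) (fun i => ‖b i‖ ^ 2)
    have hg : Summable g := Summable.sum g (summable_sq a) (summable_sq b)
    let Φ : e31.period → ℕ ⊕ ℕ := fun s => if s.1.1 then Sum.inr (3 * s.1.2.2 - s.1.2.1).toNat
      else Sum.inl (3 * s.1.2.2 - s.1.2.1 - 1).toNat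
    have hΦ : Function.Injective Φ := by
      rintro ⟨⟨i, m, n⟩, hs⟩ ⟨⟨i', m', n'⟩, hs'⟩ he
      cases i <;> cases i'
      · rw [memPA] at hs hs'
        have h3 : (3 * n - m - 1).toNat = (3 * n' - m' - 1).toNat := Sum.inl.inj he
        have h4 : 3 * n - m = 3 * n' - m' := by omega
        have h5 : n = n' := by omega
        have h6 : m = m' := by omega
        subst h5 h6
        rfl
      · exact absurd he (by simp [Φ])
      · exact absurd he (by simp [Φ])
      · rw [memPB] at hs hs'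
        have h3 : (3 * n - m).toNat = (3 * n' - m').toNat := Sum.inr.inj he
        have h4 : 3 * n - m = 3 * n' - m' := by omega
        have h5 : n = n' := by omega
        have h6 : m = m' := by omega
        subst h5 h6
        rfl
    refine (hg.comp_injective hΦ).congr ?_
    rintro ⟨⟨i, m, n⟩, hs⟩
    cases i
    · rw [memPA] at hs
      change ‖a (3 * n - m - 1).toNat‖ ^ 2 = ‖z ^ n * ez a (3 * n - m - 1)‖ ^ 2
      rw [norm_mul, norm_zpow, zn, one_zpow, one_mul, ez, if_pos (by omega)]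
    · rw [memPB] at hs
      change ‖b (3 * n - m).toNat‖ ^ 2 = ‖z ^ n * ez b (3 * n - m)‖ ^ 2
      rw [norm_mul, norm_zpow, zn, one_zpow, one_mul, ez, if_pos (by omega)]
  · rintro ⟨i, m, n⟩ hs
    cases i
    · rw [memA] at hs
      rw [ham_A e31 _ hoff, vA, vB, vB, vB, zpow_sub_one₀ hz]
      obtain ⟨j, hj⟩ := Int.eq_ofNat_of_zero_le (show 0 ≤ 3 * n - m - 1 by omega)
      have h3 := qb j
      rw [← hj] at h3
      have e1 : 3 * n - (m - 1) = 3 * n - m - 1 + 2 := by ring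
      have e2 : 3 * (n - 1) - m = 3 * n - m - 1 - 2 := by ring
      rw [sub_add_cancel] at h3
      rw [e1, e2]
      linear_combination -(z ^ n) * h3
    · rw [memB] at hs
      rw [ham_B e31 _ hoff, vB, vA, vA, vA, zpow_add_one₀ hz]
      obtain ⟨j, hj⟩ := Int.eq_ofNat_of_zero_le (show 0 ≤ 3 * n - m by omega)
      have h3 := qa j
      rw [← hj] at h3
      have e1 : 3 * n - (m + 1) - 1 = 3 * n - m - 2 := by ring
      have e2 : 3 * (n + 1) - m - 1 = 3 * n - m + 2 := by ring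
      rw [e1, e2]
      linear_combination -(z ^ n) * h3

end Pool.Agent.Q235.HE
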