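import Pool.Agent.Q235.HE.Op

set_option autoImplicit false

/-!
# The roots of `z⁴ + z³ + λ`, `|λ| = 1`
-/

namespace Pool.Agent.Q235.HE

open Polynomial

/-- A monic complex polynomial is a product of linear factors. -/
theorem monic_factor (p : ℂ[X]) (hp : p.Monic) (n : ℕ) (hn : p.natDegree = n) :
    ∃ r : Fin n → ℂ, p = ∏ i, (X - C (r i)) := by
  have hs : p.Splits := IsAlgClosed.splits p
  have h1 := hs.eq_prod_roots_of_monic hp
  have hc : Multiset.card p.roots = n := by rw [← hn]; exact hs.natDegree_eq_card_roots.symm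
  obtain ⟨l, hl⟩ := Quot.exists_rep p.roots
  have hl' : (l : Multiset ℂ) = p.roots := hl
  have hlen : l.length = n := by rw [← hc, ← hl']; rfl
  subst hlen
  refine ⟨fun i => l.get i, ?_⟩
  rw [h1, ← hl', Multiset.map_coe, Multiset.prod_coe, ← List.prod_ofFn]
  congr 1
  conv_lhs => rw [← List.ofFn_get l, List.map_ofFn]
  rfl

/-- A monic polynomial of degree `n` with a small value at `α` has a root near `α`. -/
theorem near_root_monic (p : ℂ[X]) (hp : p.Monic) (n : ℕ) (hn : p.natDegree = n) (hn0 : 0 < n)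
    (α : ℂ) : ∃ ρ : ℂ, p.eval ρ = 0 ∧ ‖ρ - α‖ ^ n ≤ ‖p.eval α‖ := by
  obtain ⟨r, hr⟩ := monic_factor p hp n hn
  have he : ∀ z, p.eval z = ∏ i, (z - r i) := fun z => by
    rw [hr, eval_prod]
    simp
  have : NeZero n := ⟨hn0.ne'⟩
  obtain ⟨i, -, hi⟩ := Finset.exists_min_image Finset.univ (fun i => ‖α - r i‖)
    ⟨(0 : Fin n), Finset.mem_univ _⟩
  refine ⟨r i, ?_, ?_⟩
  · rw [he]
    exact Finset.prod_eq_zero (Finset.mem_univ i) (sub_self _)
  · rw [he, norm_prod, norm_sub_rev]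
    calc ‖α - r i‖ ^ n = ∏ _j : Fin n, ‖α - r i‖ := by simp
      _ ≤ ∏ j, ‖α - r j‖ := Finset.prod_le_prod (fun _ _ => norm_nonneg _)
        fun j _ => hi j (Finset.mem_univ _)

/-- The factorization of `z⁴ + z³ + λ`. -/
theorem quartic_factor (lam : ℂ) : ∃ r1 r2 r3 r4 : ℂ,
    ∀ z : ℂ, z ^ 4 + z ^ 3 + lam = (z - r1) * (z - r2) * (z - r3) * (z - r4) := by
  have hp : (X ^ 4 + X ^ 3 + C lam : ℂ[X]).Monic := by monicity!
  have hn : (X ^ 4 + X ^ 3 + C lam : ℂ[X]).natDegree = 4 := by compute_degree!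
  obtain ⟨r, hr⟩ := monic_factor _ hp 4 hn
  refine ⟨r 0, r 1, r 2, r 3, fun z => ?_⟩
  have h := congrArg (fun q : ℂ[X] => q.eval z) hr
  simp only [Fin.prod_univ_four, eval_add, eval_mul, eval_pow, eval_X, eval_C, eval_sub] at h
  exact h

theorem vieta {lam r1 r2 r3 r4 : ℂ}
    (h : ∀ z : ℂ, z ^ 4 + z ^ 3 + lam = (z - r1) * (z - r2) * (z - r3) * (z - r4)) :
    r1 + r2 + r3 + r4 = -1 ∧ r1 * r2 + r1 * r3 + r1 * r4 + r2 * r3 + r2 * r4 + r3 * r4 = 0 ∧
    r1 * r2 * r3 + r1 * r2 * r4 + r1 * r3 * r4 + r2 * r3 * r4 = 0 ∧ r1 * r2 * r3 * r4 = lam := by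
  have h0 := h 0
  have h1 := h 1
  have h2 := h (-1)
  have h3 := h 2
  have h4 := h (-2)
  refine ⟨?_, ?_, ?_, ?_⟩
  · linear_combination (-1 / 6) * h1 + (1 / 6) * h2 + (1 / 12) * h3 - (1 / 12) * h4
  · linear_combination (-1 / 2) * h1 + (-1 / 2) * h2 + h0
  · linear_combination (2 / 3) * h1 - (2 / 3) * h2 - (1 / 12) * h3 + (1 / 12) * h4
  · linear_combination -h0

/-- The real part of a root outside of the open disc. -/
theorem re_of_outside {lam z : ℂ} (hl : ‖lam‖ = 1) (hz : z ^ 4 + z ^ 3 + lam = 0)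
    (h1 : 1 ≤ ‖z‖) : 2 * z.re ≤ -Complex.normSq z := by
  have h2 : z ^ 3 * (z + 1) = -lam := by linear_combination hz
  have h3 : ‖z‖ ^ 3 * ‖z + 1‖ = 1 := by
    rw [← norm_pow, ← norm_mul, h2, norm_neg, hl]
  have h4 : ‖z + 1‖ ≤ 1 := by
    by_contra hcon
    push Not at hcon
    have h5 : 1 ≤ ‖z‖ ^ 3 := one_le_pow₀ h1
    nlinarith
  have h5 : Complex.normSq (z + 1) ≤ 1 := by
    rw [Complex.normSq_eq_norm_sq]
    exact pow_le_one₀ (norm_nonneg _) h4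
  rw [Complex.normSq_apply] at h5 ⊢
  simp only [Complex.add_re, Complex.one_re, Complex.add_im, Complex.one_im, add_zero] at h5
  nlinarith

theorem re_inv_of_outside {z : ℂ} (h : 2 * z.re ≤ -Complex.normSq z) (hz : z ≠ 0) :
    (z⁻¹).re ≤ -(1 / 2) := by
  rw [Complex.inv_re, div_le_iff₀ (Complex.normSq_pos.2 hz)]
  linarith

/-- At most two roots are outside of the open disc. -/
theorem not_three_outside {lam r1 r2 r3 r4 : ℂ} (hl : ‖lam‖ = 1)
    (h : ∀ z : ℂ, z ^ 4 + z ^ 3 + lam = (z - r1) * (z - r2) * (z - r3) * (z - r4))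
    (h2 : 1 ≤ ‖r2‖) (h3 : 1 ≤ ‖r3‖) (h4 : 1 ≤ ‖r4‖) : False := by
  obtain ⟨v1, -, v3, v4⟩ := vieta h
  have hl0 : lam ≠ 0 := by
    intro h0
    rw [h0, norm_zero] at hl
    exact zero_ne_one hl
  have z1 : r1 ≠ 0 := fun h0 => hl0 (by rw [← v4, h0]; ring)
  have z2 : r2 ≠ 0 := fun h0 => hl0 (by rw [← v4, h0]; ring)
  have z3 : r3 ≠ 0 := fun h0 => hl0 (by rw [← v4, h0]; ring)
  have z4 : r4 ≠ 0 := fun h0 => hl0 (by rw [← v4, h0]; ring)
  have q1 : r1 ^ 4 + r1 ^ 3 + lam = 0 := by rw [h]; ring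
  have q2 : r2 ^ 4 + r2 ^ 3 + lam = 0 := by rw [h]; ring
  have q3 : r3 ^ 4 + r3 ^ 3 + lam = 0 := by rw [h]; ring
  have q4 : r4 ^ 4 + r4 ^ 3 + lam = 0 := by rw [h]; ring
  have b2 := re_of_outside hl q2 h2
  have b3 := re_of_outside hl q3 h3
  have b4 := re_of_outside hl q4 h4
  have n2 : 1 ≤ Complex.normSq r2 := by
    rw [Complex.normSq_eq_norm_sq]; exact one_le_pow₀ h2
  have n3 : 1 ≤ Complex.normSq r3 := by
    rw [Complex.normSq_eq_norm_sq]; exact one_le_pow₀ h3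
  have n4 : 1 ≤ Complex.normSq r4 := by
    rw [Complex.normSq_eq_norm_sq]; exact one_le_pow₀ h4
  have s1 : r1.re + r2.re + r3.re + r4.re = -1 := by
    have := congrArg Complex.re v1
    simpa using this
  rcases le_or_gt 1 ‖r1‖ with h1 | h1
  · have b1 := re_of_outside hl q1 h1
    have n1 : 1 ≤ Complex.normSq r1 := by
      rw [Complex.normSq_eq_norm_sq]; exact one_le_pow₀ h1
    linarith
  · have si : r1⁻¹ + r2⁻¹ + r3⁻¹ + r4⁻¹ = 0 := by
      field_simp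
      linear_combination v3
    have i2 := re_inv_of_outside b2 z2
    have i3 := re_inv_of_outside b3 z3
    have i4 := re_inv_of_outside b4 z4
    have si' : (r1⁻¹).re + (r2⁻¹).re + (r3⁻¹).re + (r4⁻¹).re = 0 := by
      have := congrArg Complex.re si
      simpa only [Complex.add_re, Complex.zero_re] using this
    have i1 : 3 / 2 ≤ (r1⁻¹).re := by linarith
    have i5 : 3 / 2 ≤ ‖r1‖⁻¹ := by
      rw [← norm_inv]
      exact i1.trans (Complex.re_le_norm _)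
    have hr1 : 0 < ‖r1‖ := norm_pos_iff.2 z1
    have i6 : ‖r1‖ ≤ 2 / 3 := by
      have h5 := mul_le_mul_of_nonneg_right i5 hr1.le
      rw [inv_mul_cancel₀ hr1.ne'] at h5
      linarith
    have pr : Complex.normSq r1 * (Complex.normSq r2 * Complex.normSq r3 * Complex.normSq r4) = 1 := by
      have h5 : Complex.normSq (r1 * r2 * r3 * r4) = 1 := by
        rw [v4, Complex.normSq_eq_norm_sq, hl]; norm_num
      simp only [map_mul] at h5
      rw [← h5]; ring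
    have i7 : Complex.normSq r1 ≤ 4 / 9 := by
      rw [Complex.normSq_eq_norm_sq]
      nlinarith [norm_nonneg r1]
    have i8 : 9 / 4 ≤ Complex.normSq r2 * Complex.normSq r3 * Complex.normSq r4 := by
      have h5 : 0 ≤ Complex.normSq r2 * Complex.normSq r3 * Complex.normSq r4 := by positivity
      nlinarith
    have i9 : r1.re ≤ 2 / 3 := (Complex.re_le_norm _).trans i6
    have i10 : Complex.normSq r2 + Complex.normSq r3 + Complex.normSq r4 ≤ 10 / 3 := by linarith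
    set x := Complex.normSq r2 - 1 with hx
    set y := Complex.normSq r3 - 1 with hy
    set w := Complex.normSq r4 - 1 with hw
    have e2 : Complex.normSq r2 = 1 + x := by rw [hx]; ring
    have e3 : Complex.normSq r3 = 1 + y := by rw [hy]; ring
    have e4 : Complex.normSq r4 = 1 + w := by rw [hw]; ring
    rw [e2, e3, e4] at i8
    have x0 : 0 ≤ x := by linarith
    have y0 : 0 ≤ y := by linarith
    have w0 : 0 ≤ w := by linarith
    have s0 : x + y + w ≤ 1 / 3 := by linarith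
    have xy : x * y ≤ 1 / 9 := by nlinarith
    have yw : y * w ≤ 1 / 9 := by nlinarith
    have xw : x * w ≤ 1 / 9 := by nlinarith
    have xyw : x * y * w ≤ 1 / 9 * 1 := by
      apply mul_le_mul xy (by linarith) w0 (by norm_num)
    nlinarith

/-- Two of the roots are inside of the disc. -/
theorem two_inside (lam : ℂ) (hl : ‖lam‖ = 1) : ∃ μ1 μ2 ν1 ν2 : ℂ, ‖μ1‖ < 1 ∧ ‖μ2‖ < 1 ∧
    ∀ z : ℂ, z ^ 4 + z ^ 3 + lam = (z - μ1) * (z - μ2) * (z - ν1) * (z - ν2) := by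
  obtain ⟨r1, r2, r3, r4, h⟩ := quartic_factor lam
  by_cases a1 : ‖r1‖ < 1
  · by_cases a2 : ‖r2‖ < 1
    · exact ⟨r1, r2, r3, r4, a1, a2, h⟩
    by_cases a3 : ‖r3‖ < 1
    · exact ⟨r1, r3, r2, r4, a1, a3, fun z => by rw [h]; ring⟩
    by_cases a4 : ‖r4‖ < 1
    · exact ⟨r1, r4, r2, r3, a1, a4, fun z => by rw [h]; ring⟩
    exact (not_three_outside hl h (not_lt.1 a2) (not_lt.1 a3) (not_lt.1 a4)).elim
  by_cases a2 : ‖r2‖ < 1
  · by_cases a3 : ‖r3‖ < 1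
    · exact ⟨r2, r3, r1, r4, a2, a3, fun z => by rw [h]; ring⟩
    by_cases a4 : ‖r4‖ < 1
    · exact ⟨r2, r4, r1, r3, a2, a4, fun z => by rw [h]; ring⟩
    exact (not_three_outside (r1 := r2) (r2 := r1) hl (fun z => by rw [h]; ring) (not_lt.1 a1)
      (not_lt.1 a3) (not_lt.1 a4)).elim
  by_cases a3 : ‖r3‖ < 1
  · by_cases a4 : ‖r4‖ < 1
    · exact ⟨r3, r4, r1, r2, a3, a4, fun z => by rw [h]; ring⟩
    exact (not_three_outside (r1 := r3) (r2 := r1) (r3 := r2) (r4 := r4) hl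
      (fun z => by rw [h]; ring) (not_lt.1 a1) (not_lt.1 a2) (not_lt.1 a4)).elim
  · exact (not_three_outside (r1 := r4) (r2 := r1) (r3 := r2) (r4 := r3) hl
      (fun z => by rw [h]; ring) (not_lt.1 a1) (not_lt.1 a2) (not_lt.1 a3)).elim

/-- A root on the circle is a third root of unity. -/
theorem circle_root {lam z : ℂ} (hl : ‖lam‖ = 1) (hz : z ^ 4 + z ^ 3 + lam = 0)
    (h1 : ‖z‖ = 1) : z ^ 2 + z + 1 = 0 ∧ lam = z ^ 2 := by
  have h2 : z ^ 3 * (z + 1) = -lam := by linear_combination hz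
  have h3 : ‖z + 1‖ = 1 := by
    have : ‖z‖ ^ 3 * ‖z + 1‖ = 1 := by
      rw [← norm_pow, ← norm_mul, h2, norm_neg, hl]
    rwa [h1, one_pow, one_mul] at this
  have h4 : z * (starRingEnd ℂ) z = 1 := by
    rw [Complex.mul_conj, Complex.normSq_eq_norm_sq, h1]; norm_num
  have h5 : (z + 1) * (starRingEnd ℂ) (z + 1) = 1 := by
    rw [Complex.mul_conj, Complex.normSq_eq_norm_sq, h3]; norm_num
  rw [map_add, map_one] at h5
  have h6 : z ^ 2 + z + 1 = 0 := by linear_combination z * h5 - (z + 1) * h4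
  refine ⟨h6, ?_⟩
  linear_combination hz - z ^ 2 * h6

theorem no_circle_root {lam z : ℂ} (hl : ‖lam‖ = 1) (hne : lam ^ 2 + lam + 1 ≠ 0)
    (hz : z ^ 4 + z ^ 3 + lam = 0) : ‖z‖ ≠ 1 := by
  intro h1
  obtain ⟨h2, h3⟩ := circle_root hl hz h1
  apply hne
  rw [h3]
  linear_combination (z ^ 2 - z + 1) * h2

theorem factor_T {lam μ1 μ2 ν1 ν2 : ℂ}
    (h : ∀ z : ℂ, z ^ 4 + z ^ 3 + lam = (z - μ1) * (z - μ2) * (z - ν1) * (z - ν2)) (x : H) :
    let y1 : H := S x - ν2 • x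
    let y2 : H := S y1 - ν1 • y1
    let y3 : H := y2 - μ2 • L y2
    T lam x = y3 - μ1 • L y3 := by
  intro y1 y2 y3
  obtain ⟨v1, v2, v3, v4⟩ := vieta h
  have e2 : y2 = S (S x) - (ν1 + ν2) • S x + (ν1 * ν2) • x := by
    change S (S x - ν2 • x) - ν1 • (S x - ν2 • x) = _
    simp only [map_sub, map_smul]
    module
  have e3 : L y2 = S x - (ν1 + ν2) • x + (ν1 * ν2) • L x := by
    rw [e2]
    simp only [map_sub, map_add, map_smul, LS]
  have e4 : L (L y2) = x - (ν1 + ν2) • L x + (ν1 * ν2) • L (L x) := by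
    rw [e3]
    simp only [map_sub, map_add, map_smul, LS]
  have e5 : y3 - μ1 • L y3 = y2 - (μ1 + μ2) • L y2 + (μ1 * μ2) • L (L y2) := by
    change y2 - μ2 • L y2 - μ1 • L (y2 - μ2 • L y2) = _
    simp only [map_sub, map_smul]
    module
  rw [e5, e4, e3, e2, T_apply]
  have c1 : (1 : ℂ) = -(ν1 + ν2) - (μ1 + μ2) := by linear_combination v1
  have c2 : (0 : ℂ) = ν1 * ν2 + (μ1 + μ2) * (ν1 + ν2) + μ1 * μ2 := by linear_combination -v2
  have c3 : (0 : ℂ) = -(μ1 + μ2) * (ν1 * ν2) - μ1 * μ2 * (ν1 + ν2) := by linear_combination v3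
  have e6 : S x + S (S x) + lam • L (L x) = S (S x) + (1 : ℂ) • S x + (0 : ℂ) • x + (0 : ℂ) • L x
      + lam • L (L x) := by module
  rw [e6]
  conv_lhs => rw [c1, ← v4]
  have e7 : ∀ c d e f : H, ∀ s t : ℂ, s = 0 → t = 0 → c + d + (0 : ℂ) • x + (0 : ℂ) • L x + f =
      c + d + s • x + t • L x + f := by
    intro c d e f s t hs ht
    rw [hs, ht]
  rw [e7 _ _ 0 _ _ _ c2.symm c3.symm]
  module

theorem lower_L (μ : ℂ) (x : H) : (1 - ‖μ‖) * ‖x‖ ≤ ‖x - μ • L x‖ := by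
  have h1 := norm_sub_norm_le x (μ • L x)
  have h2 : ‖μ • L x‖ ≤ ‖μ‖ * ‖x‖ := by
    rw [norm_smul]
    gcongr
    exact norm_L_le x
  linarith

theorem lower_S (ν : ℂ) (x : H) : |‖ν‖ - 1| * ‖x‖ ≤ ‖S x - ν • x‖ := by
  have h1 := abs_norm_sub_norm_le (S x) (ν • x)
  rw [norm_S, norm_smul] at h1
  refine le_trans (le_of_eq ?_) h1
  rw [← abs_of_nonneg (norm_nonneg x), ← abs_mul, abs_of_nonneg (norm_nonneg x), ← abs_neg]
  congr 1
  ring

/-- `T` is bounded below unless `λ` is one of the two Dirac momenta. -/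
theorem T_lower (lam : ℂ) (hl : ‖lam‖ = 1) (hne : lam ^ 2 + lam + 1 ≠ 0) :
    ∃ δ : ℝ, 0 < δ ∧ ∀ x : H, δ * ‖x‖ ≤ ‖T lam x‖ := by
  obtain ⟨μ1, μ2, ν1, ν2, h1, h2, h⟩ := two_inside lam hl
  have n1 : ‖ν1‖ ≠ 1 := no_circle_root hl hne (by rw [h]; ring)
  have n2 : ‖ν2‖ ≠ 1 := no_circle_root hl hne (by rw [h]; ring)
  have p1 : 0 < |‖ν1‖ - 1| := abs_pos.2 (sub_ne_zero.2 n1)
  have p2 : 0 < |‖ν2‖ - 1| := abs_pos.2 (sub_ne_zero.2 n2)
  have p3 : 0 < 1 - ‖μ1‖ := by linarith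
  have p4 : 0 < 1 - ‖μ2‖ := by linarith
  refine ⟨(1 - ‖μ1‖) * ((1 - ‖μ2‖) * (|‖ν1‖ - 1| * |‖ν2‖ - 1|)), by positivity, fun x => ?_⟩
  rw [factor_T h x]
  refine le_trans ?_ (lower_L μ1 _)
  rw [mul_assoc]
  refine mul_le_mul_of_nonneg_left ?_ p3.le
  refine le_trans ?_ (lower_L μ2 _)
  rw [mul_assoc]
  refine mul_le_mul_of_nonneg_left ?_ p4.le
  refine le_trans ?_ (lower_S ν1 _)
  rw [mul_assoc]
  refine mul_le_mul_of_nonneg_left ?_ p1.le
  exact lower_S ν2 x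

end Pool.Agent.Q235.HE
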